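import Pool.Agent.H20.ThmD.Defs

/-! Branching structures and dominated balanced separators: big components. -/

set_option autoImplicit false
set_option linter.unusedSectionVars false

namespace Pool.Agent.H20.ThmD

open Finset Pool.Agent.H112R3.TA Pool.Agent.H20

variable {V : Type} [Fintype V] [DecidableEq V] {G : SimpleGraph V}

lemma comp_sub {U : Finset V} {s : V} (hs : s ∈ U) : comp G (univ \ U) s ⊆ U := by
  intro y hy
  rw [mem_comp] at hy
  have := reach_not_mem hy (by simp [hs])
  simpa using this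

lemma comp_cn {U : Finset V} {s : V} : Cn G (comp G (univ \ U) s) := by
  intro x hx y hy
  rw [mem_comp] at hx hy
  obtain ⟨w⟩ := hx.symm.trans hy
  refine reach_in_support w (fun z hz => ?_)
  rw [mem_comp]
  exact hx.trans (support_reach w z hz)

lemma cn_reach {A U : Finset V} (hA : Cn G A) (hAU : A ⊆ U) {x y : V} (hx : x ∈ A) (hy : y ∈ A) :
    (del G (univ \ U)).Reachable x y :=
  (hA x hx y hy).mono (del_mono (sdiff_subset_sdiff Subset.rfl hAU))

lemma cn_insert {A : Finset V} (hA : Cn G A) {w y : V} (hy : y ∈ A) (hwy : G.Adj w y) :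
    Cn G (insert w A) := by
  have hwr : (del G (univ \ insert w A)).Reachable w y := by
    apply SimpleGraph.Adj.reachable
    exact ⟨hwy, by simp, by simp [hy]⟩
  have key : ∀ x ∈ insert w A, (del G (univ \ insert w A)).Reachable x y := by
    intro x hx
    rcases mem_insert.1 hx with rfl | hx
    · exact hwr
    · exact cn_reach hA (subset_insert _ _) hx hy
  intro x hx z hz
  exact (key x hx).trans (key z hz).symm

section big

variable {Big : Finset V → Prop}

lemma BC.sub {U B : Finset V} (h : BC G Big U B) : B ⊆ U := by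
  obtain ⟨s, hs, rfl, _⟩ := h
  exact comp_sub hs

lemma BC.cn {U B : Finset V} (h : BC G Big U B) : Cn G B := by
  obtain ⟨s, hs, rfl, _⟩ := h
  exact comp_cn

lemma BC.big {U B : Finset V} (h : BC G Big U B) : Big B := by
  obtain ⟨s, hs, rfl, h⟩ := h
  exact h

/-- a neighbour of a component inside `U` belongs to the component -/
lemma BC.closed {U B : Finset V} (h : BC G Big U B) {x y : V} (hx : x ∈ B) (hy : y ∈ U)
    (hxy : G.Adj x y) : y ∈ B := by
  have hxU := h.sub hx
  obtain ⟨s, hs, rfl, _⟩ := h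
  rw [mem_comp] at hx ⊢
  refine hx.trans (SimpleGraph.Adj.reachable ?_)
  exact ⟨hxy, by simp [hxU], by simp [hy]⟩

/-- connected big sets are absorbed -/
lemma BC.absorb (hint : ∀ A B : Finset V, Big A → Big B → (A ∩ B).Nonempty)
    {U B A : Finset V} (h : BC G Big U B) (hA : Cn G A) (hAb : Big A) (hAU : A ⊆ U) :
    A ⊆ B := by
  obtain ⟨z, hz⟩ := hint A B hAb h.big
  rw [mem_inter] at hz
  obtain ⟨s, hs, rfl, _⟩ := h
  intro y hy
  rw [mem_comp] at *
  exact hz.2.trans (cn_reach hA hAU hz.1 hy)

lemma BC.mono (hint : ∀ A B : Finset V, Big A → Big B → (A ∩ B).Nonempty)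
    {U U' B B' : Finset V} (h : BC G Big U B) (h' : BC G Big U' B') (hU : U' ⊆ U) : B' ⊆ B :=
  h.absorb hint h'.cn h'.big (h'.sub.trans hU)

lemma BC_of (hmono : ∀ A B : Finset V, A ⊆ B → Big A → Big B)
    (hint : ∀ A B : Finset V, Big A → Big B → (A ∩ B).Nonempty)
    {U A : Finset V} (hA : Cn G A) (hAb : Big A) (hAU : A ⊆ U) :
    ∃ B, BC G Big U B ∧ A ⊆ B := by
  obtain ⟨z, hz⟩ := hint A A hAb hAb
  rw [mem_inter] at hz
  have hsub : A ⊆ comp G (univ \ U) z := by
    intro y hy
    rw [mem_comp]
    exact cn_reach hA hAU hz.1 hy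
  exact ⟨comp G (univ \ U) z, ⟨z, hAU hz.1, rfl, hmono _ _ hsub hAb⟩, hsub⟩

lemma BC.nonempty (hint : ∀ A B : Finset V, Big A → Big B → (A ∩ B).Nonempty)
    {U B : Finset V} (h : BC G Big U B) : B.Nonempty := by
  have := hint B B h.big h.big
  rwa [inter_self] at this

/-- closed neighbourhood of a set -/
noncomputable def NN (G : SimpleGraph V) (X : Finset V) : Finset V := X.biUnion (cnb G)

lemma mem_NN {X : Finset V} {y : V} : y ∈ NN G X ↔ ∃ x ∈ X, G.Adj x y ∨ x = y := by
  unfold NN
  rw [mem_biUnion]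
  constructor
  · rintro ⟨x, hx, h⟩; exact ⟨x, hx, mem_cnb.1 h⟩
  · rintro ⟨x, hx, h⟩; exact ⟨x, hx, mem_cnb.2 h⟩

lemma NN_mono {X Y : Finset V} (h : X ⊆ Y) : NN G X ⊆ NN G Y :=
  biUnion_subset_biUnion_of_subset_left _ h

lemma Dm.mono {S S' : Finset V} {c c' : ℕ} (h : Dm G S c) (hS : S' ⊆ S) (hc : c ≤ c') :
    Dm G S' c' := by
  obtain ⟨Y, h1, h2⟩ := h
  exact ⟨Y, h1.trans hc, hS.trans h2⟩

lemma Dm.union {S S' : Finset V} {c c' : ℕ} (h : Dm G S c) (h' : Dm G S' c') :
    Dm G (S ∪ S') (c + c') := by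
  obtain ⟨Y, h1, h2⟩ := h
  obtain ⟨Y', h1', h2'⟩ := h'
  refine ⟨Y ∪ Y', (card_union_le _ _).trans (Nat.add_le_add h1 h1'), ?_⟩
  refine union_subset (h2.trans ?_) (h2'.trans ?_)
  · exact biUnion_subset_biUnion_of_subset_left _ subset_union_left
  · exact biUnion_subset_biUnion_of_subset_left _ subset_union_right

lemma Dm_empty : Dm G (∅ : Finset V) 0 := ⟨∅, by simp, by simp⟩

lemma Dm_cnb (x : V) : Dm G (cnb G x) 1 := ⟨{x}, by simp, by simp⟩

lemma Ins.mono (hmono : ∀ A B : Finset V, A ⊆ B → Big A → Big B)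
    (hint : ∀ A B : Finset V, Big A → Big B → (A ∩ B).Nonempty)
    {U U' X X' : Finset V} {c c' : ℕ} (h : Ins G Big U X c) (hU : U' ⊆ U) (hX : X' ⊆ X)
    (hc : c ≤ c') : Ins G Big U' X' c' := by
  obtain ⟨S, hS, h⟩ := h
  refine ⟨S, hS.mono Subset.rfl hc, ?_⟩
  intro B hB x hx y hy
  obtain ⟨B', hB', hBB'⟩ := BC_of hmono hint hB.cn hB.big
    (hB.sub.trans (sdiff_subset_sdiff hU Subset.rfl))
  exact h B' hB' x (hX hx) y (hBB' hy)

lemma Ins.union (hmono : ∀ A B : Finset V, A ⊆ B → Big A → Big B)
    (hint : ∀ A B : Finset V, Big A → Big B → (A ∩ B).Nonempty)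
    {U X X' : Finset V} {c c' : ℕ} (h : Ins G Big U X c) (h' : Ins G Big U X' c') :
    Ins G Big U (X ∪ X') (c + c') := by
  obtain ⟨S, hS, h⟩ := h
  obtain ⟨S', hS', h'⟩ := h'
  refine ⟨S ∪ S', hS.union hS', ?_⟩
  intro B hB x hx y hy
  rcases mem_union.1 hx with hx | hx
  · obtain ⟨B', hB', hBB'⟩ := BC_of hmono hint hB.cn hB.big
      (hB.sub.trans (sdiff_subset_sdiff Subset.rfl subset_union_left))
    exact h B' hB' x hx y (hBB' hy)
  · obtain ⟨B', hB', hBB'⟩ := BC_of hmono hint hB.cn hB.big
      (hB.sub.trans (sdiff_subset_sdiff Subset.rfl subset_union_right))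
    exact h' B' hB' x hx y (hBB' hy)

lemma Ins_single {U : Finset V} (x : V) : Ins G Big U {x} 1 := by
  refine ⟨cnb G x, Dm_cnb x, ?_⟩
  intro B hB z hz y hy
  rw [mem_singleton] at hz
  subst hz
  have := hB.sub hy
  rw [mem_sdiff, mem_cnb] at this
  push Not at this
  exact this.2

lemma Ins_empty {U : Finset V} : Ins G Big U ∅ 0 :=
  ⟨∅, Dm_empty, fun _ _ x hx => absurd hx (notMem_empty x)⟩

lemma not_Ins {U X S : Finset V} {c : ℕ} (h : ¬ Ins G Big U X c) (hS : Dm G S c) :
    ∃ B, BC G Big (U \ S) B ∧ ∃ x ∈ X, ∃ y ∈ B, G.Adj x y ∨ x = y := by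
  by_contra hcon
  push Not at hcon
  exact h ⟨S, hS, fun B hB x hx y hy => hcon B hB x hx y hy⟩

/-- big components avoiding the neighbourhood of an insulated set -/
lemma exists_far (hmono : ∀ A B : Finset V, A ⊆ B → Big A → Big B)
    (hint : ∀ A B : Finset V, Big A → Big B → (A ∩ B).Nonempty)
    {U X S : Finset V} {c d K : ℕ} (hH : Hv G Big U K) (hI : Ins G Big U X c)
    (hS : Dm G S d) (hK : c + d ≤ K) : ∃ B, BC G Big (U \ (NN G X ∪ S)) B := by
  obtain ⟨T, hT, h⟩ := hI
  obtain ⟨B, hB⟩ := hH (T ∪ S) ((hT.union hS).mono Subset.rfl hK)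
  obtain ⟨B', hB', hBB'⟩ := BC_of hmono hint hB.cn hB.big
    (hB.sub.trans (sdiff_subset_sdiff Subset.rfl subset_union_left))
  have hsub : B ⊆ U \ (NN G X ∪ S) := by
    intro y hy
    have h1 := hB.sub hy
    rw [mem_sdiff, mem_union, not_or] at h1
    rw [mem_sdiff, mem_union, not_or]
    refine ⟨h1.1, ?_, h1.2.2⟩
    intro hy'
    obtain ⟨x, hx, hxy⟩ := mem_NN.1 hy'
    have := h B' hB' x hx y (hBB' hy)
    tauto
  obtain ⟨B'', hB'', _⟩ := BC_of hmono hint hB.cn hB.big hsub
  exact ⟨B'', hB''⟩

/-- Gyarfas paths -/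
theorem path_lemma (hmono : ∀ A B : Finset V, A ⊆ B → Big A → Big B)
    (hint : ∀ A B : Finset V, Big A → Big B → (A ∩ B).Nonempty)
    {W : Finset V} {q0 : V} {C : ℕ} (hW : Cn G W) (hq : q0 ∈ W) (hC : 1 ≤ C)
    (hH : Hv G Big W C) :
    ∃ (q : ℕ → V) (r : ℕ), q 0 = q0 ∧ IP G q r ∧ (∀ i ≤ r, q i ∈ W) ∧
      ¬ Ins G Big W ((range (r + 1)).image q) C ∧
      Ins G Big W ((range (r + 1)).image q) (C + 1) := by
  classical
  by_contra hcon
  have key : ∀ i : ℕ, ∃ (q : ℕ → V) (F : Finset V), q 0 = q0 ∧ IP G q i ∧ (∀ j ≤ i, q j ∈ W) ∧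
      Ins G Big W ((range (i + 1)).image q) C ∧ Cn G F ∧ q i ∈ F ∧ F ⊆ W ∧
      (∀ x ∈ F, x ≠ q i → ∀ j < i, ¬ G.Adj (q j) x ∧ q j ≠ x) ∧
      (∀ B, BC G Big (W \ NN G ((range (i + 1)).image q)) B → B ⊆ F) := by
    intro i
    induction i with
    | zero =>
      refine ⟨fun _ => q0, W, rfl, ?_, ?_, ?_, hW, hq, Subset.rfl, ?_, ?_⟩
      · intro i j hij hj; omega
      · intro j _; exact hq
      · have : (range (0 + 1)).image (fun _ : ℕ => q0) = {q0} := by simp
        rw [this]
        exact (Ins_single q0).mono hmono hint Subset.rfl Subset.rfl hC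
      · intro x _ _ j hj; omega
      · intro B hB
        exact hB.sub.trans sdiff_subset
    | succ i ih =>
      obtain ⟨q, F, hq0, hIP, hqW, hIns, hFc, hqF, hFW, hF, hBF⟩ := ih
      obtain ⟨E, hE⟩ := exists_far hmono hint hH hIns Dm_empty (le_refl _)
      rw [union_empty] at hE
      have hEF := hBF E hE
      have hEN : ∀ y ∈ E, ∀ j ≤ i, ¬ G.Adj (q j) y ∧ q j ≠ y := by
        intro y hy j hj
        have := (mem_sdiff.1 (hE.sub hy)).2
        rw [mem_NN] at this
        push Not at this
        exact this (q j) (mem_image_of_mem _ (mem_range.2 (by omega)))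
      obtain ⟨e, he⟩ := hE.nonempty hint
      have hqE : q i ∉ ((E : Finset V) : Set V) := by
        intro h
        exact (hEN _ (mem_coe.1 h) i le_rfl).2 rfl
      obtain ⟨w, y, hwy, hw, hy, _⟩ := exists_cross (hFc _ hqF _ (hEF he)) hqE (mem_coe.2 he)
      rw [mem_coe] at hw hy
      have hwF : w ∈ F := by
        have := hwy.2.1
        simpa using this
      have hwq : w ≠ q i := by
        rintro rfl
        exact (hEN y hy i le_rfl).1 hwy.1
      have hwN : w ∈ NN G ((range (i + 1)).image q) := by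
        by_contra hcon'
        exact hw (hE.closed hy (mem_sdiff.2 ⟨hFW hwF, hcon'⟩) hwy.1.symm)
      have hqw : G.Adj (q i) w := by
        obtain ⟨x, hx, hxw⟩ := mem_NN.1 hwN
        rw [mem_image] at hx
        obtain ⟨j, hj, rfl⟩ := hx
        rw [mem_range] at hj
        rcases Nat.lt_succ_iff_lt_or_eq.1 hj with h | h
        · have := hF w hwF hwq j h
          tauto
        · subst h
          rcases hxw with h | h
          · exact h
          · exact absurd h.symm hwq
      have himg : (range (i + 1)).image (Function.update q (i + 1) w) = (range (i + 1)).image q := by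
        apply image_congr
        intro j hj
        rw [coe_range, Set.mem_Iio] at hj
        rw [Function.update_of_ne hj.ne]
      have himg' : (range (i + 1 + 1)).image (Function.update q (i + 1) w) =
          (range (i + 1)).image q ∪ {w} := by
        rw [range_add_one, image_insert, himg, Function.update_self, insert_eq, union_comm]
      have hIns' : Ins G Big W ((range (i + 1 + 1)).image (Function.update q (i + 1) w)) (C + 1) := by
        rw [himg']
        exact hIns.union hmono hint (Ins_single w)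
      have hq0' : (Function.update q (i + 1) w) 0 = q0 := by
        rw [Function.update_of_ne (by omega)]
        exact hq0
      have hIP' : IP G (Function.update q (i + 1) w) (i + 1) := by
        intro a b hab hb
        rcases Nat.lt_succ_iff_lt_or_eq.1 (Nat.lt_succ_of_le hb) with h | h
        · rw [Function.update_of_ne h.ne, Function.update_of_ne (by omega)]
          exact hIP a b hab (by omega)
        · subst h
          rw [Function.update_self, Function.update_of_ne hab.ne]
          rcases Nat.lt_succ_iff_lt_or_eq.1 hab with h | h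
          · have := hF w hwF hwq a h
            refine ⟨⟨fun h' => absurd h' this.1, fun h' => by omega⟩, this.2⟩
          · subst h
            exact ⟨⟨fun _ => rfl, fun _ => hqw⟩, hwq.symm⟩
      have hqW' : ∀ j ≤ i + 1, (Function.update q (i + 1) w) j ∈ W := by
        intro j hj
        rcases Nat.lt_succ_iff_lt_or_eq.1 (Nat.lt_succ_of_le hj) with h | h
        · rw [Function.update_of_ne h.ne]
          exact hqW j (by omega)
        · rw [h, Function.update_self]
          exact hFW hwF
      by_cases hI : Ins G Big W ((range (i + 1 + 1)).image (Function.update q (i + 1) w)) C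
      · refine ⟨Function.update q (i + 1) w, insert w E, hq0', hIP', hqW', hI,
          cn_insert hE.cn hy hwy.1, ?_, ?_, ?_, ?_⟩
        · rw [Function.update_self]
          exact mem_insert_self _ _
        · exact insert_subset (hFW hwF) (hEF.trans hFW)
        · intro x hx hxw j hj
          rw [Function.update_self] at hxw
          rw [Function.update_of_ne (by omega)]
          have hxE : x ∈ E := (mem_insert.1 hx).resolve_left hxw
          exact hEN x hxE j (by omega)
        · intro B hB
          refine (hE.mono hint hB ?_).trans (subset_insert _ _)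
          refine sdiff_subset_sdiff Subset.rfl (NN_mono ?_)
          rw [himg']
          exact subset_union_left
      · exact absurd ⟨Function.update q (i + 1) w, i + 1, hq0', hIP', hqW', hI, hIns'⟩ hcon
  obtain ⟨q, _, _, hIP, _⟩ := key (Fintype.card V)
  have hinj : Set.InjOn q (range (Fintype.card V + 1)) := by
    intro i hi j hj hij
    rw [coe_range, Set.mem_Iio] at hi hj
    rcases lt_trichotomy i j with h | h | h
    · exact absurd hij (hIP i j h (by omega)).2
    · exact h
    · exact absurd hij.symm (hIP j i h (by omega)).2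
  have := card_image_of_injOn hinj
  rw [card_range] at this
  have h2 := card_le_univ ((range (Fintype.card V + 1)).image q)
  omega

end big

end Pool.Agent.H20.ThmD
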