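import Pool.Agent.H20.ThmD.Conn

/-! Cliques in branching structures and constellations. -/

set_option autoImplicit false
set_option linter.unusedSectionVars false
set_option linter.unusedVariables false

namespace Pool.Agent.H20.ThmD

open Finset Pool.Agent.H112R3.TA Pool.Agent.H20

variable {V : Type} [Fintype V] [DecidableEq V] {G : SimpleGraph V}

/-- a clique in a union of pairwise anticomplete sets is in one of them -/
theorem clique_one {ι : Type} [Fintype ι] [DecidableEq ι] {A : ι → Finset V}
    (hA : ∀ i j, i ≠ j → AC G (A i) (A j)) {C : Finset V} (hC : C ⊆ univ.biUnion A)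
    (hc : G.IsClique (C : Set V)) : C = ∅ ∨ ∃ i, C ⊆ A i := by
  rcases C.eq_empty_or_nonempty with h | ⟨x, hx⟩
  · exact Or.inl h
  · right
    obtain ⟨i, -, hi⟩ := mem_biUnion.1 (hC hx)
    refine ⟨i, fun y hy => ?_⟩
    obtain ⟨j, -, hj⟩ := mem_biUnion.1 (hC hy)
    by_cases hij : i = j
    · rw [hij]
      exact hj
    · exfalso
      obtain ⟨h1, h2⟩ := hA i j hij x hi y hj
      exact h1 (hc (mem_coe.2 hx) (mem_coe.2 hy) h2)

theorem St.clique {k : ℕ} {L : Finset V} {l : V} (h : St G k L l) (C : Finset V) (hC : C ⊆ L)
    (hc : G.IsClique (C : Set V)) : C.card ≤ 3 := by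
  induction k generalizing L l C with
  | zero =>
    have h1 : L = {l} := h
    rw [h1] at hC
    have := card_le_card hC
    rw [card_singleton] at this
    omega
  | succ k ih =>
    obtain ⟨q, r, A, a, _, _, hq, hS, hAC, hqA, _, _, hxa, hL⟩ := h
    have hmono : ∀ D : Finset V, D ⊆ C → G.IsClique (D : Set V) := fun D hD =>
      hc.subset (coe_subset.2 hD)
    by_cases hpath : ∃ j ≤ r, q j ∈ C
    · obtain ⟨j0, hj0, hj0C⟩ := hpath
      have h2 : (C ∩ (range (r + 1)).image q).card ≤ 2 := by
        by_contra hlt
        push Not at hlt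
        obtain ⟨x, hx, y, hy, z, hz, hxy, hxz, hyz⟩ := two_lt_card.1 hlt
        rw [mem_inter, mem_image] at hx hy hz
        obtain ⟨hxC, i1, hi1, rfl⟩ := hx
        obtain ⟨hyC, i2, hi2, rfl⟩ := hy
        obtain ⟨hzC, i3, hi3, rfl⟩ := hz
        rw [mem_range] at hi1 hi2 hi3
        have key : ∀ i j, i < r + 1 → j < r + 1 → q i ∈ C → q j ∈ C → q i ≠ q j →
            j = i + 1 ∨ i = j + 1 := by
          intro i j hi hj hiC hjC hne
          have hadj := hc (mem_coe.2 hiC) (mem_coe.2 hjC) hne
          rcases lt_trichotomy i j with hlt | heq | hlt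
          · exact Or.inl ((hq i j hlt (by omega)).1.1 hadj)
          · exact absurd (by rw [heq]) hne
          · exact Or.inr ((hq j i hlt (by omega)).1.1 hadj.symm)
        have e1 := key i1 i2 hi1 hi2 hxC hyC hxy
        have e2 := key i1 i3 hi1 hi3 hxC hzC hxz
        have e3 := key i2 i3 hi2 hi3 hyC hzC hyz
        omega
      have h3 : (C ∩ univ.biUnion A).card ≤ 1 := by
        rcases clique_one (G := G) hAC (C := C ∩ univ.biUnion A) inter_subset_right
          (hmono _ inter_subset_left) with h | ⟨i, hi⟩
        · rw [h, card_empty]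
          omega
        · have h4 : C ∩ univ.biUnion A ⊆ {a i} := by
            intro x hx
            rw [mem_singleton]
            by_contra hne
            have hxA := hi hx
            refine hxa i x hxA hne j0 hj0 ?_
            refine hc (mem_coe.2 hj0C) (mem_coe.2 (mem_inter.1 hx).1) ?_
            rintro rfl
            exact hqA i j0 hj0 hxA
          have := card_le_card h4
          rwa [card_singleton] at this
      have h4 : C ⊆ (C ∩ (range (r + 1)).image q) ∪ (C ∩ univ.biUnion A) := by
        rw [← inter_union_distrib_left, ← hL]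
        exact subset_inter subset_rfl hC
      have h5 := card_le_card h4
      have h6 := card_union_le (C ∩ (range (r + 1)).image q) (C ∩ univ.biUnion A)
      omega
    · push Not at hpath
      have h1 : C ⊆ univ.biUnion A := by
        intro x hx
        have h2 := hC hx
        rw [hL, mem_union] at h2
        rcases h2 with h2 | h2
        · obtain ⟨j, hj, rfl⟩ := mem_image.1 h2
          exact absurd hx (hpath j (by rw [mem_range] at hj; omega))
        · exact h2
      rcases clique_one hAC h1 hc with h | ⟨i, hi⟩
      · rw [h, card_empty]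
        omega
      · exact ih (hS i) C hi hc

theorem Cst.clique {s k : ℕ} {c : Fin s → V} {B : Fin s → Finset V} (h : Cst G s k c B)
    (C : Finset V) (hC : C ⊆ univ.image c ∪ univ.biUnion B)
    (hc : G.IsClique (C : Set V)) : C.card ≤ 4 := by
  obtain ⟨hB, hBB, hcc, _, _⟩ := h
  have h1 : (C ∩ univ.image c).card ≤ 1 := by
    rw [card_le_one]
    intro x hx y hy
    rw [mem_inter, mem_image] at hx hy
    obtain ⟨hxC, i, _, rfl⟩ := hx
    obtain ⟨hyC, j, _, rfl⟩ := hy
    by_contra hne
    have hij : i ≠ j := by
      rintro rfl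
      exact hne rfl
    exact (hcc i j hij).1 (hc (mem_coe.2 hxC) (mem_coe.2 hyC) hne)
  have h2 : (C ∩ univ.biUnion B).card ≤ 3 := by
    rcases clique_one (G := G) hBB (C := C ∩ univ.biUnion B) inter_subset_right
      (hc.subset (coe_subset.2 inter_subset_left)) with h | ⟨i, hi⟩
    · rw [h, card_empty]
      omega
    · obtain ⟨L, l, hL, hBL⟩ := hB i
      refine St.clique hL _ ?_ (hc.subset (coe_subset.2 inter_subset_left))
      rw [hBL] at hi
      exact hi.trans (erase_subset _ _)
  have h4 : C ⊆ (C ∩ univ.image c) ∪ (C ∩ univ.biUnion B) := by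
    rw [← inter_union_distrib_left]
    exact subset_inter subset_rfl hC
  have h5 := card_le_card h4
  have h6 := card_union_le (C ∩ univ.image c) (C ∩ univ.biUnion B)
  omega

end Pool.Agent.H20.ThmD
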