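import Pool.Agent.H20.ThmD.Defs

/-! Connectivity of branching structures. -/

set_option autoImplicit false
set_option linter.unusedSectionVars false
set_option linter.unusedVariables false

namespace Pool.Agent.H20.ThmD

open Finset Pool.Agent.H112R3.TA Pool.Agent.H20

variable {V : Type} [Fintype V] [DecidableEq V] {G : SimpleGraph V}

lemma T17.reach_mono {A A' : Finset V} (h : A ⊆ A') {x y : V}
    (hr : (del G (univ \ A)).Reachable x y) : (del G (univ \ A')).Reachable x y := by
  refine hr.mono ?_
  intro a b hab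
  refine ⟨hab.1, ?_, ?_⟩
  · have h1 := hab.2.1
    simp only [mem_sdiff, mem_univ, true_and, not_not] at h1 ⊢
    exact h h1
  · have h1 := hab.2.2
    simp only [mem_sdiff, mem_univ, true_and, not_not] at h1 ⊢
    exact h h1

lemma T17.reach_adj {A : Finset V} {x y : V} (hx : x ∈ A) (hy : y ∈ A) (h : G.Adj x y) :
    (del G (univ \ A)).Reachable x y := by
  apply SimpleGraph.Adj.reachable
  refine ⟨h, ?_, ?_⟩
  · simp only [mem_sdiff, mem_univ, true_and, not_not]
    exact hx
  · simp only [mem_sdiff, mem_univ, true_and, not_not]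
    exact hy

lemma T17.reach_path {A : Finset V} {q : ℕ → V} {r m : ℕ} (hq : IP G q r)
    (hA : ∀ j, m ≤ j → j ≤ r → q j ∈ A) (j : ℕ) (hmj : m ≤ j) (hj : j ≤ r) :
    (del G (univ \ A)).Reachable (q m) (q j) := by
  induction j, hmj using Nat.le_induction with
  | base => exact SimpleGraph.Reachable.refl _
  | succ n hn ih =>
    refine (ih (by omega)).trans ?_
    apply T17.reach_adj (hA n hn (by omega)) (hA (n + 1) (by omega) hj)
    exact ((hq n (n + 1) (by omega) hj).1).2 rfl

theorem St.root_mem {k : ℕ} {L : Finset V} {l : V} (h : St G k L l) : l ∈ L := by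
  cases k with
  | zero =>
    have h' : L = {l} := h
    rw [h']
    exact mem_singleton_self l
  | succ k =>
    obtain ⟨q, r, A, a, hr, h0, hIP, hSt, hAC, hq, hl, hj, hx, hL⟩ := h
    rw [hL, mem_union]
    left
    rw [mem_image]
    exact ⟨0, by rw [mem_range]; omega, h0⟩

/-- the main step: everything is reachable from `q m`, `m ≤ 1` -/
lemma T17.reach_all {L' : Finset V} {q : ℕ → V} {r m : ℕ} {A : Fin 3 → Finset V}
    {a : Fin 3 → V} (hIP : IP G q r) (hm : m ≤ 1)
    (hP : ∀ j, m ≤ j → j ≤ r → q j ∈ L') (hA : ∀ i, A i ⊆ L')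
    (hc : ∀ i, Cn G (A i)) (ha : ∀ i, a i ∈ A i)
    (hj : ∀ i, ∃ j, 1 ≤ j ∧ j ≤ r ∧ G.Adj (q j) (a i)) :
    ∀ i, ∀ x ∈ A i, (del G (univ \ L')).Reachable (q m) x := by
  intro i x hx
  obtain ⟨j, hj1, hj2, hadj⟩ := hj i
  refine (T17.reach_path hIP hP j (by omega) hj2).trans ?_
  refine (T17.reach_adj (hP j (by omega) hj2) (hA i (ha i)) hadj).trans ?_
  exact T17.reach_mono (hA i) (hc i (a i) (ha i) x hx)

theorem St.conn {k : ℕ} {L : Finset V} {l : V} (h : St G k L l) : Cn G L := by
  induction k generalizing L l with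
  | zero =>
    have h' : L = {l} := h
    rw [h']
    intro x hx y hy
    rw [mem_singleton] at hx hy
    rw [hx, hy]
  | succ k ih =>
    obtain ⟨q, r, A, a, hr, h0, hIP, hSt, hAC, hq, hl, hj, hx, hL⟩ := h
    have hP : ∀ j, 0 ≤ j → j ≤ r → q j ∈ L := by
      intro j _ hj'
      rw [hL, mem_union]
      left
      rw [mem_image]
      exact ⟨j, by rw [mem_range]; omega, rfl⟩
    have hA : ∀ i, A i ⊆ L := by
      intro i x hx
      rw [hL, mem_union]
      right
      rw [mem_biUnion]
      exact ⟨i, mem_univ i, hx⟩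
    have hall : ∀ x ∈ L, (del G (univ \ L)).Reachable (q 0) x := by
      intro x hx'
      rw [hL, mem_union, mem_image, mem_biUnion] at hx'
      rcases hx' with ⟨j, hj', rfl⟩ | ⟨i, _, hi⟩
      · rw [mem_range] at hj'
        exact T17.reach_path hIP hP j (Nat.zero_le _) (by omega)
      · exact T17.reach_all hIP (Nat.zero_le _) hP hA (fun i => ih (hSt i))
          (fun i => (hSt i).root_mem) hj i x hi
    intro x hx' y hy'
    exact (hall x hx').symm.trans (hall y hy')

theorem St.conn' {k : ℕ} {L : Finset V} {l : V} (h : St G (k + 1) L l) :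
    Cn G (L.erase l) ∧ (L.erase l).Nonempty := by
  obtain ⟨q, r, A, a, hr, h0, hIP, hSt, hAC, hq, hl, hj, hx, hL⟩ := h
  have hP : ∀ j, 1 ≤ j → j ≤ r → q j ∈ L.erase l := by
    intro j hj1 hj'
    rw [mem_erase]
    refine ⟨?_, ?_⟩
    · rw [← h0]
      exact ((hIP 0 j (by omega) hj').2).symm
    · rw [hL, mem_union]
      left
      rw [mem_image]
      exact ⟨j, by rw [mem_range]; omega, rfl⟩
  have hA : ∀ i, A i ⊆ L.erase l := by
    intro i x hx
    rw [mem_erase]
    refine ⟨?_, ?_⟩
    · intro he
      apply hq i 0 (Nat.zero_le _)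
      rw [h0, ← he]
      exact hx
    · rw [hL, mem_union]
      right
      rw [mem_biUnion]
      exact ⟨i, mem_univ i, hx⟩
  have hall : ∀ x ∈ L.erase l, (del G (univ \ (L.erase l))).Reachable (q 1) x := by
    intro x hx'
    rw [mem_erase] at hx'
    obtain ⟨hne, hx'⟩ := hx'
    rw [hL, mem_union, mem_image, mem_biUnion] at hx'
    rcases hx' with ⟨j, hj', hjx⟩ | ⟨i, _, hi⟩
    · rw [mem_range] at hj'
      rw [← hjx]
      have hj0 : 1 ≤ j := by
        rcases Nat.eq_zero_or_pos j with h1 | h1
        · exfalso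
          apply hne
          rw [← hjx, h1, h0]
        · exact h1
      exact T17.reach_path hIP hP j hj0 (by omega)
    · exact T17.reach_all hIP (le_refl _) hP hA (fun i => (hSt i).conn)
        (fun i => (hSt i).root_mem) hj i x hi
  refine ⟨?_, ⟨q 1, hP 1 (le_refl _) hr⟩⟩
  intro x hx' y hy'
  exact (hall x hx').symm.trans (hall y hy')

/-! ### T7 complete bipartite induced minors (may use T1) -/

lemma T17.induce_reach {A : Finset V} {x y : V} (w : (del G (univ \ A)).Walk x y) :
    ∀ (hx : x ∈ (A : Set V)) (hy : y ∈ (A : Set V)),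
      (G.induce (A : Set V)).Reachable ⟨x, hx⟩ ⟨y, hy⟩ := by
  induction w with
  | nil => intro hx hy; exact SimpleGraph.Reachable.refl _
  | cons h p ih =>
    intro hx hy
    have hm := h.2.2
    simp only [mem_sdiff, mem_univ, true_and, not_not] at hm
    have hm' := mem_coe.2 hm
    refine SimpleGraph.Reachable.trans ?_ (ih hm' hy)
    apply SimpleGraph.Adj.reachable
    exact h.1

lemma T17.induce_conn {A : Finset V} (h : Cn G A) (hne : A.Nonempty) :
    (G.induce (A : Set V)).Connected := by
  obtain ⟨z, hz⟩ := hne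
  have : Nonempty (A : Set V) := ⟨⟨z, mem_coe.2 hz⟩⟩
  refine SimpleGraph.Connected.mk ?_
  rintro ⟨x, hx⟩ ⟨y, hy⟩
  obtain ⟨w⟩ := h x (mem_coe.1 hx) y (mem_coe.1 hy)
  exact T17.induce_reach w hx hy

theorem Cst.minor {s k : ℕ} {c : Fin s → V} {B : Fin s → Finset V} (hs : 1 ≤ s)
    (h : Cst G s k c B) :
    IsInducedMinor (completeBipartiteGraph (Fin s) (Fin s)) G := by
  obtain ⟨h1, h2, h3, h4, h5⟩ := h
  have hB : ∀ j, Cn G (B j) ∧ (B j).Nonempty := by
    intro j
    obtain ⟨L, l, hSt, hBj⟩ := h1 j
    cases k with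
    | zero =>
      exfalso
      have hL : L = {l} := hSt
      obtain ⟨x, hx, _⟩ := h5 ⟨0, hs⟩ j
      rw [hBj, hL, mem_erase, mem_singleton] at hx
      exact hx.1 hx.2
    | succ k =>
      rw [hBj]
      exact hSt.conn'
  refine ⟨Sum.elim (fun i => {c i}) (fun j => (B j : Set V)), ?_, ?_, ?_⟩
  · rintro (i | j)
    · have e : ((Sum.elim (fun i => {c i}) (fun j => (B j : Set V)) (Sum.inl i) : Set V))
          = (({c i} : Finset V) : Set V) := by
        rw [Sum.elim_inl, coe_singleton]
      rw [e]
      apply T17.induce_conn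
      · intro x hx y hy
        rw [mem_singleton] at hx hy
        rw [hx, hy]
      · exact ⟨c i, mem_singleton_self _⟩
    · exact T17.induce_conn (hB j).1 (hB j).2
  · rintro (i | i) (j | j) hij
    · simp only [Sum.elim_inl, Set.disjoint_singleton]
      exact (h3 i j (fun h => hij (by rw [h]))).2
    · simp only [Sum.elim_inl, Sum.elim_inr, Set.disjoint_singleton_left, mem_coe]
      exact h4 i j
    · simp only [Sum.elim_inl, Sum.elim_inr, Set.disjoint_singleton_right, mem_coe]
      exact h4 j i
    · simp only [Sum.elim_inr]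
      rw [Set.disjoint_left]
      intro x hx hy
      exact (h2 i j (fun h => hij (by rw [h])) x (mem_coe.1 hx) x (mem_coe.1 hy)).2 rfl
  · rintro (i | i) (j | j) hij
    · simp only [completeBipartiteGraph_adj, Sum.isLeft_inl, Sum.isRight_inl, Sum.elim_inl,
        Set.mem_singleton_iff]
      constructor
      · intro h
        simp at h
      · rintro ⟨x, hx, y, hy, hxy⟩
        rw [hx, hy] at hxy
        exact absurd hxy (h3 i j (fun h => hij (by rw [h]))).1
    · simp only [Sum.elim_inl, Sum.elim_inr, Set.mem_singleton_iff]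
      constructor
      · intro _
        obtain ⟨y, hy, hxy⟩ := h5 i j
        exact ⟨c i, rfl, y, mem_coe.2 hy, hxy⟩
      · intro _
        simp [completeBipartiteGraph]
    · simp only [Sum.elim_inl, Sum.elim_inr, Set.mem_singleton_iff]
      constructor
      · intro _
        obtain ⟨y, hy, hxy⟩ := h5 j i
        exact ⟨y, mem_coe.2 hy, c j, rfl, hxy.symm⟩
      · intro _
        simp [completeBipartiteGraph]
    · simp only [Sum.elim_inr]
      constructor
      · intro h
        simp [completeBipartiteGraph] at h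
      · rintro ⟨x, hx, y, hy, hxy⟩
        exact absurd hxy (h2 i j (fun h => hij (by rw [h])) x (mem_coe.1 hx) y (mem_coe.1 hy)).1

end Pool.Agent.H20.ThmD
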