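import Pool.Agent.H20.Dom

/-! Branching structures and dominated balanced separators: definitions. -/

set_option autoImplicit false
set_option linter.unusedSectionVars false

namespace Pool.Agent.H20.ThmD

open Finset Pool.Agent.H112R3.TA Pool.Agent.H20

variable {V : Type} [Fintype V] [DecidableEq V]

/-- `A` is connected in `G` -/
def Cn (G : SimpleGraph V) (A : Finset V) : Prop :=
  ∀ x ∈ A, ∀ y ∈ A, (del G (univ \ A)).Reachable x y

/-- disjoint sets without edges between them -/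
def AC (G : SimpleGraph V) (A B : Finset V) : Prop :=
  ∀ x ∈ A, ∀ y ∈ B, ¬ G.Adj x y ∧ x ≠ y

/-- branching structures of depth `k` with root `l` -/
def St (G : SimpleGraph V) : ℕ → Finset V → V → Prop
  | 0, L, l => L = {l}
  | k + 1, L, l => ∃ (q : ℕ → V) (r : ℕ) (A : Fin 3 → Finset V) (a : Fin 3 → V),
      1 ≤ r ∧ q 0 = l ∧ IP G q r ∧ (∀ i, St G k (A i) (a i)) ∧
      (∀ i j, i ≠ j → AC G (A i) (A j)) ∧
      (∀ i, ∀ j ≤ r, q j ∉ A i) ∧
      (∀ i, ∀ x ∈ A i, ¬ G.Adj l x) ∧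
      (∀ i, ∃ j, 1 ≤ j ∧ j ≤ r ∧ G.Adj (q j) (a i)) ∧
      (∀ i, ∀ x ∈ A i, x ≠ a i → ∀ j ≤ r, ¬ G.Adj (q j) x) ∧
      L = (range (r + 1)).image q ∪ univ.biUnion A

/-- a sequence of legs -/
def Legs (G : SimpleGraph V) (k N : ℕ) (a : ℕ → V) (A : ℕ → Finset V) : Prop :=
  (∀ i < N, St G k (A i) (a i)) ∧
  (∀ j < N, ∀ i < j, (∀ x ∈ A j, ¬ G.Adj (a i) x ∧ a i ≠ x) ∧ a j ∉ A i ∧
    AC G ((A i).erase (a i)) ((A j).erase (a j)))

/-- root `j` has a neighbour in leg `i` -/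
def Ct (G : SimpleGraph V) (a : ℕ → V) (A : ℕ → Finset V) (i j : ℕ) : Prop :=
  ∃ x ∈ (A i).erase (a i), G.Adj (a j) x

/-- among `N` legs there are three pairwise anticomplete ones -/
def NC (G : SimpleGraph V) (N : ℕ) : Prop :=
  ∀ (k : ℕ) (a : ℕ → V) (A : ℕ → Finset V), Legs G k N a A →
    ∃ i j l, i < j ∧ j < l ∧ l < N ∧ ¬ Ct G a A i j ∧ ¬ Ct G a A i l ∧ ¬ Ct G a A j l

/-- `M` pairwise anticomplete connected sets of structures and `M` independent vertices,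
each of which has a neighbour in all the sets -/
def Cst (G : SimpleGraph V) (s k : ℕ) (c : Fin s → V) (B : Fin s → Finset V) : Prop :=
  (∀ i, ∃ L l, St G k L l ∧ B i = L.erase l) ∧
  (∀ i j, i ≠ j → AC G (B i) (B j)) ∧
  (∀ i j, i ≠ j → ¬ G.Adj (c i) (c j) ∧ c i ≠ c j) ∧
  (∀ i j, c i ∉ B j) ∧
  (∀ i j, ∃ x ∈ B j, G.Adj (c i) x)

/-- path decomposition of the subgraph induced by `S` with bags of at most `p` vertices -/
def HasPD (G : SimpleGraph V) (S : Finset V) (p : ℕ) : Prop :=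
  ∃ (n : ℕ) (X : Fin n → Finset V), (∀ i, X i ⊆ S) ∧ (∀ v ∈ S, ∃ i, v ∈ X i) ∧
    (∀ u v, u ∈ S → v ∈ S → G.Adj u v → ∃ i, u ∈ X i ∧ v ∈ X i) ∧
    (∀ v, ∀ i j l : Fin n, i ≤ j → j ≤ l → v ∈ X i → v ∈ X l → v ∈ X j) ∧
    (∀ i, (X i).card ≤ p)

/-- `B` is a big component of the subgraph induced by `U` -/
def BC (G : SimpleGraph V) (Big : Finset V → Prop) (U B : Finset V) : Prop :=
  ∃ s ∈ U, B = comp G (univ \ U) s ∧ Big B

/-- `S` is dominated by at most `c` vertices -/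
def Dm (G : SimpleGraph V) (S : Finset V) (c : ℕ) : Prop :=
  ∃ Y : Finset V, Y.card ≤ c ∧ S ⊆ Y.biUnion (cnb G)

/-- every set dominated by `K` vertices leaves a big component -/
def Hv (G : SimpleGraph V) (Big : Finset V → Prop) (U : Finset V) (K : ℕ) : Prop :=
  ∀ S, Dm G S K → ∃ B, BC G Big (U \ S) B

/-- `X` can be separated from the big component -/
def Ins (G : SimpleGraph V) (Big : Finset V → Prop) (U X : Finset V) (c : ℕ) : Prop :=
  ∃ S, Dm G S c ∧ ∀ B, BC G Big (U \ S) B → ∀ x ∈ X, ∀ y ∈ B, ¬ G.Adj x y ∧ x ≠ y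

/-- constants -/
def gg (N : ℕ) : ℕ → ℕ
  | 0 => 0
  | k + 1 => 2 + 2 * (N * (gg N k + 1))

/-- constants -/
def KK (N : ℕ) : ℕ → ℕ → ℕ
  | 0, c => c
  | k + 1, c => c + 2 + N * (gg N k + 1) + KK N k (N * (gg N k + 1) + 1)

end Pool.Agent.H20.ThmD
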