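import Pool.Agent.H20.ThmD.Conn

/-! Forests are induced minors of branching structures. -/

set_option autoImplicit false
set_option linter.unusedSectionVars false
set_option linter.unusedVariables false

namespace Pool.Agent.H20.ThmD

open Finset Pool.Agent.H112R3.TA Pool.Agent.H20

variable {V : Type} [Fintype V] [DecidableEq V] {G : SimpleGraph V}

namespace T5

variable {α : Type} [Fintype α] [DecidableEq α] {H : SimpleGraph α}

lemma mem_adj {S : Finset α} {x y : α} :
    (del H (univ \ S)).Adj x y ↔ H.Adj x y ∧ x ∈ S ∧ y ∈ S := by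
  show (H.Adj x y ∧ x ∉ univ \ S ∧ y ∉ univ \ S) ↔ _
  simp only [mem_sdiff, mem_univ, true_and, not_not]

lemma split (hH : H.IsAcyclic) {S : Finset α} (hS : Cn H S) {u : α} (hu : u ∈ S)
    (h1 : ∃ w ∈ S, w ≠ u) : ∃ (X Y : Finset α) (v : α), X ∪ Y = S ∧ Disjoint X Y ∧ u ∈ X ∧
      v ∈ Y ∧ Cn H X ∧ Cn H Y ∧ H.Adj u v ∧
      ∀ x ∈ X, ∀ y ∈ Y, H.Adj x y → x = u ∧ y = v := by
  classical
  obtain ⟨w, hw, hwu⟩ := h1
  have hv : ∃ v ∈ S, v ≠ u ∧ H.Adj u v := by
    obtain ⟨p⟩ := hS u hu w hw
    cases p with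
    | nil => exact absurd rfl hwu
    | cons h p =>
      rw [mem_adj] at h
      exact ⟨_, h.2.2, h.1.ne', h.1⟩
  obtain ⟨v, hvS, hvu, huv⟩ := hv
  set Y : Finset α := (S.erase u).filter
    (fun y => (del H (univ \ (S.erase u))).Reachable v y) with hY
  have hvY : v ∈ Y := by
    rw [hY, mem_filter, mem_erase]
    exact ⟨⟨hvu, hvS⟩, SimpleGraph.Reachable.refl _⟩
  have huY : u ∉ Y := by
    rw [hY, mem_filter, mem_erase]
    intro h
    exact h.1.1 rfl
  have hYS : ∀ y ∈ Y, y ∈ S := by
    intro y hy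
    rw [hY, mem_filter, mem_erase] at hy
    exact hy.1.2
  have hclosed : ∀ y ∈ Y, ∀ z ∈ S, z ≠ u → H.Adj y z → z ∈ Y := by
    intro y hy z hz hzu hyz
    rw [hY, mem_filter] at hy ⊢
    have hz' : z ∈ S.erase u := mem_erase.2 ⟨hzu, hz⟩
    exact ⟨hz', hy.2.trans (SimpleGraph.Adj.reachable (mem_adj.2 ⟨hyz, hy.1, hz'⟩))⟩
  have hcross : ∀ x ∈ S \ Y, ∀ y ∈ Y, H.Adj x y → x = u := by
    intro x hx y hy hxy
    by_contra hxu
    rw [mem_sdiff] at hx
    exact hx.2 (hclosed y hy x hx.1 hxu hxy.symm)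
  have hYc : ∀ (a y : α), (del H (univ \ (S.erase u))).Walk a y → a ∈ Y →
      (del H (univ \ Y)).Reachable a y := by
    intro a y p
    induction p with
    | nil => intro _; exact SimpleGraph.Reachable.refl _
    | cons h p ih =>
      intro ha
      rw [mem_adj] at h
      have hb := h.2.2
      rw [mem_erase] at hb
      have hbY := hclosed _ ha _ hb.2 hb.1 h.1
      exact (SimpleGraph.Adj.reachable (mem_adj.2 ⟨h.1, ha, hbY⟩)).trans (ih hbY)
  have hvY' : ∀ y ∈ Y, (del H (univ \ Y)).Reachable v y := by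
    intro y hy
    have hy' := hy
    rw [hY, mem_filter] at hy'
    obtain ⟨p⟩ := hy'.2
    exact hYc v y p hvY
  have huX : u ∈ S \ Y := mem_sdiff.2 ⟨hu, huY⟩
  have hXc : ∀ (x z : α), (del H (univ \ S)).Walk x z → z = u → x ∈ S \ Y →
      (del H (univ \ (S \ Y))).Reachable x u := by
    intro x z p
    induction p with
    | nil => intro h _; rw [h]
    | @cons a b c h p ih =>
      intro hc ha
      by_cases hau : a = u
      · rw [hau]
      · rw [mem_adj] at h
        have hb : b ∈ S \ Y := by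
          rw [mem_sdiff]
          refine ⟨h.2.2, ?_⟩
          intro hbY
          exact hau (hcross a ha b hbY h.1)
        exact (SimpleGraph.Adj.reachable (mem_adj.2 ⟨h.1, ha, hb⟩)).trans (ih hc hb)
  refine ⟨S \ Y, Y, v, ?_, sdiff_disjoint, huX, hvY, ?_, ?_, huv, ?_⟩
  · exact sdiff_union_of_subset hYS
  · intro x hx y hy
    have h1 : (del H (univ \ (S \ Y))).Reachable x u := by
      obtain ⟨p⟩ := hS x (mem_sdiff.1 hx).1 u hu
      exact hXc x u p rfl hx
    have h2 : (del H (univ \ (S \ Y))).Reachable y u := by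
      obtain ⟨p⟩ := hS y (mem_sdiff.1 hy).1 u hu
      exact hXc y u p rfl hy
    exact h1.trans h2.symm
  · intro x hx y hy
    exact (hvY' x hx).symm.trans (hvY' y hy)
  · intro x hx y hy hxy
    have hxu := hcross x hx y hy hxy
    refine ⟨hxu, ?_⟩
    by_contra hyv
    rw [hxu] at hxy
    have hbr := (SimpleGraph.isAcyclic_iff_forall_adj_isBridge.1 hH) hxy
    rw [SimpleGraph.isBridge_iff] at hbr
    apply hbr
    have h1 : (H.deleteEdges {s(u, y)}).Adj u v := by
      rw [SimpleGraph.deleteEdges_adj]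
      refine ⟨huv, ?_⟩
      rw [Set.mem_singleton_iff]
      intro he
      rw [Sym2.eq_iff] at he
      rcases he with ⟨_, h⟩ | ⟨h, h'⟩
      · exact hyv h.symm
      · exact hvu h'
    refine (SimpleGraph.Adj.reachable h1).trans ?_
    have hy' := hy
    rw [hY, mem_filter] at hy'
    refine hy'.2.mono ?_
    intro a b hab
    rw [mem_adj, mem_erase, mem_erase] at hab
    rw [SimpleGraph.deleteEdges_adj]
    refine ⟨hab.1, ?_⟩
    rw [Set.mem_singleton_iff]
    intro he
    rw [Sym2.eq_iff] at he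
    rcases he with ⟨h, _⟩ | ⟨_, h⟩
    · exact hab.2.1.1 h
    · exact hab.2.2.1 h

/-- the component of `u` and the rest -/
lemma comp {S : Finset α} {u : α} (hu : u ∈ S) : ∃ (X Y : Finset α), X ∪ Y = S ∧ Disjoint X Y ∧
    u ∈ X ∧ Cn H X ∧ ∀ x ∈ X, ∀ y ∈ Y, ¬ H.Adj x y := by
  classical
  set X : Finset α := S.filter (fun y => (del H (univ \ S)).Reachable u y) with hX
  have huX : u ∈ X := by
    rw [hX, mem_filter]
    exact ⟨hu, SimpleGraph.Reachable.refl _⟩
  have hclosed : ∀ y ∈ X, ∀ z ∈ S, H.Adj y z → z ∈ X := by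
    intro y hy z hz hyz
    rw [hX, mem_filter] at hy ⊢
    exact ⟨hz, hy.2.trans (SimpleGraph.Adj.reachable (mem_adj.2 ⟨hyz, hy.1, hz⟩))⟩
  have hXc : ∀ (a y : α), (del H (univ \ S)).Walk a y → a ∈ X →
      (del H (univ \ X)).Reachable a y := by
    intro a y p
    induction p with
    | nil => intro _; exact SimpleGraph.Reachable.refl _
    | cons h p ih =>
      intro ha
      rw [mem_adj] at h
      have hbX := hclosed _ ha _ h.2.2 h.1
      exact (SimpleGraph.Adj.reachable (mem_adj.2 ⟨h.1, ha, hbX⟩)).trans (ih hbX)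
  have huX' : ∀ y ∈ X, (del H (univ \ X)).Reachable u y := by
    intro y hy
    have hy' := hy
    rw [hX, mem_filter] at hy'
    obtain ⟨p⟩ := hy'.2
    exact hXc u y p huX
  refine ⟨X, S \ X, union_sdiff_of_subset (filter_subset _ _), disjoint_sdiff, huX, ?_, ?_⟩
  · intro x hx y hy
    exact (huX' x hx).symm.trans (huX' y hy)
  · intro x hx y hy hxy
    rw [mem_sdiff] at hy
    exact hy.2 (hclosed x hx y hy.1 hxy)

/-- models of `H[S]` inside `L` -/
def Mdl (H : SimpleGraph α) (S : Finset α) (G : SimpleGraph V) (L : Finset V)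
    (B : α → Finset V) : Prop :=
  (∀ a ∈ S, B a ⊆ L ∧ (B a).Nonempty ∧ Cn G (B a)) ∧
  (∀ a ∈ S, ∀ b ∈ S, a ≠ b → Disjoint (B a) (B b) ∧
    (H.Adj a b ↔ ∃ x ∈ B a, ∃ y ∈ B b, G.Adj x y))

/-- union of two models with prescribed cross edges -/
lemma Mdl.union {X Y : Finset α} {L : Finset V} {B : α → Finset V} (hX : Mdl H X G L B)
    (hY : Mdl H Y G L B)
    (hc : ∀ a ∈ X, ∀ b ∈ Y, Disjoint (B a) (B b) ∧
      (H.Adj a b ↔ ∃ x ∈ B a, ∃ y ∈ B b, G.Adj x y)) : Mdl H (X ∪ Y) G L B := by
  refine ⟨?_, ?_⟩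
  · intro a ha
    rw [mem_union] at ha
    rcases ha with ha | ha
    · exact hX.1 a ha
    · exact hY.1 a ha
  · intro a ha b hb hab
    rw [mem_union] at ha hb
    rcases ha with ha | ha <;> rcases hb with hb | hb
    · exact hX.2 a ha b hb hab
    · exact hc a ha b hb
    · have h := hc b hb a ha
      refine ⟨h.1.symm, ?_⟩
      rw [SimpleGraph.adj_comm, h.2]
      constructor
      · rintro ⟨x, hx, y, hy, hxy⟩
        exact ⟨y, hy, x, hx, hxy.symm⟩
      · rintro ⟨x, hx, y, hy, hxy⟩
        exact ⟨y, hy, x, hx, hxy.symm⟩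
    · exact hY.2 a ha b hb hab

lemma Mdl.congr {X : Finset α} {L L' : Finset V} {B B' : α → Finset V} (hX : Mdl H X G L B)
    (hL : L ⊆ L') (h : ∀ a ∈ X, B' a = B a) : Mdl H X G L' B' := by
  refine ⟨?_, ?_⟩
  · intro a ha
    rw [h a ha]
    exact ⟨(hX.1 a ha).1.trans hL, (hX.1 a ha).2⟩
  · intro a ha b hb hab
    rw [h a ha, h b hb]
    exact hX.2 a ha b hb hab

lemma rooted (hH : H.IsAcyclic) (n : ℕ) : ∀ (S : Finset α) (u : α) (k : ℕ) (L : Finset V)
    (l : V), S.card = n → u ∈ S → Cn H S → n ≤ k → St G k L l →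
    ∃ B : α → Finset V, Mdl H S G L B ∧ l ∈ B u := by
  induction n using Nat.strong_induction_on with
  | _ n ih =>
  intro S u k L l hn hu hS hk h
  by_cases h1 : ∃ w ∈ S, w ≠ u
  · obtain ⟨X, Y, v, hXY, hdis, huX, hvY, hXc, hYc, huv, hcross⟩ := split hH hS hu h1
    have hcard : X.card + Y.card = n := by
      rw [← hn, ← hXY, card_union_of_disjoint hdis]
    have hXp : 0 < X.card := card_pos.2 ⟨u, huX⟩
    have hYp : 0 < Y.card := card_pos.2 ⟨v, hvY⟩
    obtain ⟨k', rfl⟩ : ∃ k', k = k' + 1 := ⟨k - 1, by omega⟩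
    have hroot := h.root_mem
    obtain ⟨q, r, A, a, hr, h0, hIP, hSt, hAC, hq, hl, hj, hx, hL⟩ := h
    obtain ⟨B1, hB1, hl1⟩ := ih X.card (by omega) X u k' (A 0) (a 0) rfl huX hXc (by omega)
      (hSt 0)
    obtain ⟨B2, hB2, hl2⟩ := ih Y.card (by omega) Y v k' (A 1) (a 1) rfl hvY hYc (by omega)
      (hSt 1)
    have hA : ∀ i, A i ⊆ L := by
      intro i x hx
      rw [hL, mem_union]
      right
      rw [mem_biUnion]
      exact ⟨i, mem_univ i, hx⟩
    have hPL : (range (r + 1)).image q ⊆ L := by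
      rw [hL]
      exact subset_union_left
    -- the new bags
    set P : Finset V := (range (r + 1)).image q with hP
    have hPA : ∀ i, Disjoint P (A i) := by
      intro i
      rw [Finset.disjoint_left]
      intro x hxP hxA
      rw [hP, mem_image] at hxP
      obtain ⟨j, hj', rfl⟩ := hxP
      rw [mem_range] at hj'
      exact hq i j (by omega) hxA
    have hPadj : ∀ i, ∀ x ∈ P, ∀ y ∈ A i, G.Adj x y → y = a i := by
      intro i x hxP y hy hxy
      by_contra hne
      rw [hP, mem_image] at hxP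
      obtain ⟨j, hj', rfl⟩ := hxP
      rw [mem_range] at hj'
      exact hx i y hy hne j (by omega) hxy
    have hPe : ∀ i, ∃ x ∈ P, G.Adj x (a i) := by
      intro i
      obtain ⟨j, hj1, hj2, hadj⟩ := hj i
      refine ⟨q j, ?_, hadj⟩
      rw [hP, mem_image]
      exact ⟨j, by rw [mem_range]; omega, rfl⟩
    have hqP : ∀ j ≤ r, q j ∈ P := by
      intro j hj'
      rw [hP, mem_image]
      exact ⟨j, by rw [mem_range]; omega, rfl⟩
    let B : α → Finset V := fun w => if w ∈ Y then B2 w else if w = u then B1 u ∪ P else B1 w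
    have huY : u ∉ Y := fun h => (Finset.disjoint_left.1 hdis) huX h
    have hBY : ∀ w ∈ Y, B w = B2 w := by
      intro w hw
      show (if w ∈ Y then B2 w else if w = u then B1 u ∪ P else B1 w) = B2 w
      rw [if_pos hw]
    have hBu : B u = B1 u ∪ P := by
      show (if u ∈ Y then B2 u else if u = u then B1 u ∪ P else B1 u) = _
      rw [if_neg huY, if_pos rfl]
    have hBX : ∀ w ∈ X, w ≠ u → B w = B1 w := by
      intro w hw hwu
      show (if w ∈ Y then B2 w else if w = u then B1 u ∪ P else B1 w) = _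
      rw [if_neg (Finset.disjoint_left.1 hdis hw), if_neg hwu]
    have hMY : Mdl H Y G L B := hB2.congr (hA 1) hBY
    -- adjacency between the bag of `u` and the others
    have hu1 : ∀ b ∈ X, b ≠ u → Disjoint (B1 u ∪ P) (B1 b) ∧
        (H.Adj u b ↔ ∃ x ∈ B1 u ∪ P, ∃ y ∈ B1 b, G.Adj x y) := by
      intro b hb hbu
      have h2 := hB1.2 u huX b hb (Ne.symm hbu)
      refine ⟨?_, ?_⟩
      · rw [disjoint_union_left]
        exact ⟨h2.1, (hPA 0).mono_right (hB1.1 b hb).1⟩
      · rw [h2.2]
        constructor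
        · rintro ⟨x, hx', y, hy, hxy⟩
          exact ⟨x, mem_union_left _ hx', y, hy, hxy⟩
        · rintro ⟨x, hx', y, hy, hxy⟩
          rw [mem_union] at hx'
          rcases hx' with hx' | hx'
          · exact ⟨x, hx', y, hy, hxy⟩
          · exfalso
            have h3 := hPadj 0 x hx' y ((hB1.1 b hb).1 hy) hxy
            rw [h3] at hy
            exact (Finset.disjoint_left.1 h2.1) hl1 hy
    have hMX : Mdl H X G L B := by
      refine ⟨?_, ?_⟩
      · intro w hw
        by_cases hwu : w = u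
        · rw [hwu, hBu]
          refine ⟨union_subset ((hB1.1 u huX).1.trans (hA 0)) hPL,
            ⟨q 0, mem_union_right _ (hqP 0 (Nat.zero_le _))⟩, ?_⟩
          have hall : ∀ x ∈ B1 u ∪ P, (del G (univ \ (B1 u ∪ P))).Reachable (q 0) x := by
            intro x hx'
            rw [mem_union] at hx'
            rcases hx' with hx' | hx'
            · obtain ⟨j, hj1, hj2, hadj⟩ := hj 0
              refine (T17.reach_path hIP (m := 0)
                (fun j _ hj' => mem_union_right _ (hqP j hj')) j (Nat.zero_le _) hj2).trans ?_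
              refine (T17.reach_adj (mem_union_right _ (hqP j hj2)) (mem_union_left _ hl1)
                hadj).trans ?_
              exact T17.reach_mono subset_union_left ((hB1.1 u huX).2.2 (a 0) hl1 x hx')
            · rw [hP, mem_image] at hx'
              obtain ⟨j, hj', rfl⟩ := hx'
              rw [mem_range] at hj'
              exact T17.reach_path hIP (m := 0)
                (fun j _ hj' => mem_union_right _ (hqP j hj')) j (Nat.zero_le _) (by omega)
          intro x hx' y hy'
          exact (hall x hx').symm.trans (hall y hy')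
        · rw [hBX w hw hwu]
          exact ⟨(hB1.1 w hw).1.trans (hA 0), (hB1.1 w hw).2⟩
      · intro w hw b hb hwb
        by_cases hwu : w = u
        · have hbu : b ≠ u := fun h => hwb (hwu.trans h.symm)
          rw [hwu, hBu, hBX b hb hbu]
          exact hu1 b hb hbu
        · by_cases hbu : b = u
          · rw [hbu, hBu, hBX w hw hwu]
            have h := hu1 w hw hwu
            refine ⟨h.1.symm, ?_⟩
            rw [SimpleGraph.adj_comm, h.2]
            constructor
            · rintro ⟨x, hx, y, hy, hxy⟩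
              exact ⟨y, hy, x, hx, hxy.symm⟩
            · rintro ⟨x, hx, y, hy, hxy⟩
              exact ⟨y, hy, x, hx, hxy.symm⟩
          · rw [hBX w hw hwu, hBX b hb hbu]
            exact hB1.2 w hw b hb hwb
    refine ⟨B, ?_, ?_⟩
    · rw [← hXY]
      apply hMX.union hMY
      intro w hw b hb
      rw [hBY b hb]
      have hbA := (hB2.1 b hb).1
      by_cases hwu : w = u
      · rw [hwu, hBu]
        have hd0 : Disjoint (B1 u) (B2 b) := by
          rw [Finset.disjoint_left]
          intro x hx1 hx2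
          exact (hAC 0 1 (by decide) x ((hB1.1 u huX).1 hx1) x (hbA hx2)).2 rfl
        refine ⟨?_, ?_⟩
        · rw [disjoint_union_left]
          exact ⟨hd0, (hPA 1).mono_right hbA⟩
        · constructor
          · intro hub
            have hbv := (hcross u huX b hb hub).2
            rw [hbv]
            obtain ⟨x, hx', hxa⟩ := hPe 1
            exact ⟨x, mem_union_right _ hx', a 1, hl2, hxa⟩
          · rintro ⟨x, hx', y, hy, hxy⟩
            rw [mem_union] at hx'
            rcases hx' with hx' | hx'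
            · exact absurd hxy
                (hAC 0 1 (by decide) x ((hB1.1 u huX).1 hx') y (hbA hy)).1
            · have hya := hPadj 1 x hx' y (hbA hy) hxy
              rw [hya] at hy
              have hbv : b = v := by
                by_contra hne
                exact (Finset.disjoint_left.1 (hB2.2 b hb v hvY hne).1) hy hl2
              rw [hbv]
              exact huv
      · rw [hBX w hw hwu]
        have hwA := (hB1.1 w hw).1
        refine ⟨?_, ?_⟩
        · rw [Finset.disjoint_left]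
          intro x hx1 hx2
          exact (hAC 0 1 (by decide) x (hwA hx1) x (hbA hx2)).2 rfl
        · constructor
          · intro hub
            exact absurd (hcross w hw b hb hub).1 hwu
          · rintro ⟨x, hx', y, hy, hxy⟩
            exact absurd hxy (hAC 0 1 (by decide) x (hwA hx') y (hbA hy)).1
    · rw [hBu, ← h0]
      exact mem_union_right _ (hqP 0 (Nat.zero_le _))
  · push Not at h1
    refine ⟨fun _ => L, ⟨?_, ?_⟩, h.root_mem⟩
    · intro a _
      exact ⟨Subset.refl _, ⟨l, h.root_mem⟩, h.conn⟩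
    · intro a ha b hb hab
      exact absurd ((h1 a ha).trans (h1 b hb).symm) hab

lemma unrooted (hH : H.IsAcyclic) (n : ℕ) : ∀ (S : Finset α) (k : ℕ) (L : Finset V)
    (l : V), S.card = n → n + 1 ≤ k → St G k L l → ∃ B : α → Finset V, Mdl H S G L B := by
  induction n using Nat.strong_induction_on with
  | _ n ih =>
  intro S k L l hn hk h
  rcases S.eq_empty_or_nonempty with hS | ⟨u, hu⟩
  · refine ⟨fun _ => ∅, ?_, ?_⟩
    · intro a ha
      rw [hS] at ha
      exact absurd ha (notMem_empty a)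
    · intro a ha
      rw [hS] at ha
      exact absurd ha (notMem_empty a)
  · obtain ⟨X, Y, hXY, hdis, huX, hXc, hcross⟩ := comp (H := H) hu
    have hcard : X.card + Y.card = n := by
      rw [← hn, ← hXY, card_union_of_disjoint hdis]
    have hXp : 0 < X.card := card_pos.2 ⟨u, huX⟩
    obtain ⟨k', rfl⟩ : ∃ k', k = k' + 1 := ⟨k - 1, by omega⟩
    obtain ⟨q, r, A, a, hr, h0, hIP, hSt, hAC, hq, hl, hj, hx, hL⟩ := h
    have hA : ∀ i, A i ⊆ L := by
      intro i x hx
      rw [hL, mem_union]
      right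
      rw [mem_biUnion]
      exact ⟨i, mem_univ i, hx⟩
    obtain ⟨B1, hB1, _⟩ := rooted hH X.card X u k' (A 0) (a 0) rfl huX hXc (by omega) (hSt 0)
    obtain ⟨B2, hB2⟩ := ih Y.card (by omega) Y k' (A 1) (a 1) rfl (by omega) (hSt 1)
    let B : α → Finset V := fun w => if w ∈ Y then B2 w else B1 w
    have hBY : ∀ w ∈ Y, B w = B2 w := by
      intro w hw
      show (if w ∈ Y then B2 w else B1 w) = B2 w
      rw [if_pos hw]
    have hBX : ∀ w ∈ X, B w = B1 w := by
      intro w hw
      show (if w ∈ Y then B2 w else B1 w) = _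
      rw [if_neg (Finset.disjoint_left.1 hdis hw)]
    refine ⟨B, ?_⟩
    rw [← hXY]
    apply (hB1.congr (hA 0) hBX).union (hB2.congr (hA 1) hBY)
    intro w hw b hb
    rw [hBX w hw, hBY b hb]
    have hwA := (hB1.1 w hw).1
    have hbA := (hB2.1 b hb).1
    refine ⟨?_, ?_⟩
    · rw [Finset.disjoint_left]
      intro x hx1 hx2
      exact (hAC 0 1 (by decide) x (hwA hx1) x (hbA hx2)).2 rfl
    · constructor
      · intro hub
        exact absurd hub (hcross w hw b hb)
      · rintro ⟨x, hx', y, hy, hxy⟩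
        exact absurd hxy (hAC 0 1 (by decide) x (hwA hx') y (hbA hy)).1

end T5

theorem forest_model {α : Type} [Fintype α] (H : SimpleGraph α) (hH : H.IsAcyclic) {k : ℕ}
    {L : Finset V} {l : V} (hk : Fintype.card α + 1 ≤ k) (h : St G k L l) :
    IsInducedMinor H G := by
  classical
  obtain ⟨B, hB1, hB2⟩ := T5.unrooted hH (Fintype.card α) univ k L l card_univ hk h
  refine ⟨fun a => (B a : Set V), ?_, ?_, ?_⟩
  · intro a
    exact T17.induce_conn (hB1 a (mem_univ a)).2.2 (hB1 a (mem_univ a)).2.1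
  · intro a b hab
    exact disjoint_coe.2 (hB2 a (mem_univ a) b (mem_univ b) hab).1
  · intro a b hab
    rw [(hB2 a (mem_univ a) b (mem_univ b) hab).2]
    simp only [mem_coe]

end Pool.Agent.H20.ThmD
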