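import Pool.Agent.H20.ThmD.Path

/-! Path decompositions of constellations. -/

set_option autoImplicit false
set_option linter.unusedSectionVars false
set_option linter.unusedVariables false

namespace Pool.Agent.H20.ThmD

open Finset Pool.Agent.H112R3.TA Pool.Agent.H20

variable {V : Type} [Fintype V] [DecidableEq V] {G : SimpleGraph V}

theorem Cst.pw {s k : ℕ} {c : Fin s → V} {B : Fin s → Finset V} (hs : 1 ≤ s)
    (h : Cst G s k c B) {S : Finset V} (hLS : univ.image c ∪ univ.biUnion B ⊆ S)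
    {n : ℕ} (X : Fin n → Finset V)
    (hcov : ∀ v ∈ S, ∃ i, v ∈ X i)
    (hedge : ∀ u v, u ∈ S → v ∈ S → G.Adj u v → ∃ i, u ∈ X i ∧ v ∈ X i)
    (hint : ∀ v, ∀ i j l : Fin n, i ≤ j → j ≤ l → v ∈ X i → v ∈ X l → v ∈ X j) :
    ∃ i, s ≤ (X i).card := by
  obtain ⟨hB, hBB, hcc, _, hcB⟩ := h
  have hcS : ∀ i, c i ∈ S := fun i =>
    hLS (mem_union_left _ (mem_image_of_mem _ (mem_univ i)))
  have hBS : ∀ j, B j ⊆ S := fun j x hx =>
    hLS (mem_union_right _ (mem_biUnion.2 ⟨j, mem_univ j, hx⟩))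
  have hcn : ∀ j, Cn G (B j) ∧ (B j).Nonempty := by
    intro j
    obtain ⟨L, l, hL, hj⟩ := hB j
    cases k with
    | zero =>
      obtain ⟨x, hx, _⟩ := hcB j j
      have h1 : L = {l} := hL
      rw [hj, h1] at hx
      simp at hx
    | succ k =>
      rw [hj]
      exact St.conn' hL
  have hF : ∀ j, ∃ m : Fin n, (X m ∩ B j).Nonempty ∧ ∀ i, (X i ∩ B j).Nonempty → i ≤ m := by
    intro j
    obtain ⟨x, hx⟩ := (hcn j).2
    obtain ⟨i, hi⟩ := hcov x (hBS j hx)
    have hne : (univ.filter (fun i => (X i ∩ B j).Nonempty)).Nonempty :=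
      ⟨i, mem_filter.2 ⟨mem_univ _, ⟨x, mem_inter.2 ⟨hi, hx⟩⟩⟩⟩
    refine ⟨_, (mem_filter.1 (max'_mem _ hne)).2, fun i hi => le_max' _ _ ?_⟩
    exact mem_filter.2 ⟨mem_univ _, hi⟩
  choose m hm1 hm2 using hF
  have : Nonempty (Fin s) := ⟨⟨0, hs⟩⟩
  obtain ⟨j1, hj1⟩ := Finite.exists_min m
  refine ⟨m j1, ?_⟩
  by_cases hall : ∀ j, (X (m j1) ∩ B j).Nonempty
  · choose x hx using hall
    have hinj : Function.Injective x := by
      intro i j hij
      by_contra hne
      refine (hBB i j hne (x i) (mem_inter.1 (hx i)).2 (x j) (mem_inter.1 (hx j)).2).2 hij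
    calc s = (univ.image x).card := by rw [card_image_of_injective _ hinj, card_univ, Fintype.card_fin]
      _ ≤ (X (m j1)).card := by
        refine card_le_card ?_
        intro y hy
        obtain ⟨i, _, rfl⟩ := mem_image.1 hy
        exact (mem_inter.1 (hx i)).1
  · push Not at hall
    obtain ⟨j, hj⟩ := hall
    have hinj : Function.Injective c := by
      intro i i' hij
      by_contra hne
      exact (hcc i i' hne).2 hij
    calc s = (univ.image c).card := by rw [card_image_of_injective _ hinj, card_univ, Fintype.card_fin]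
      _ ≤ (X (m j1)).card := by
        refine card_le_card ?_
        intro y hy
        obtain ⟨i, _, rfl⟩ := mem_image.1 hy
        obtain ⟨x, hx, hxa⟩ := hcB i j1
        obtain ⟨y, hy, hya⟩ := hcB i j
        obtain ⟨t, ht1, ht2⟩ := hedge _ _ (hcS i) (hBS j1 hx) hxa
        obtain ⟨u, hu1, hu2⟩ := hedge _ _ (hcS i) (hBS j hy) hya
        have h1 : t ≤ m j1 := hm2 j1 t ⟨x, mem_inter.2 ⟨ht2, hx⟩⟩
        have h2 : m j1 ≤ u := by
          by_contra hlt
          push Not at hlt
          have h3 := trace_interval (hcn j).1 (hBS j) X hcov hedge hint hlt.le (hj1 j)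
            ⟨y, mem_inter.2 ⟨hu2, hy⟩⟩ (hm1 j)
          rw [hj] at h3
          exact not_nonempty_empty h3
        exact hint _ _ _ _ h1 h2 ht1 hu1

end Pool.Agent.H20.ThmD
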