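import Pool.Agent.H20.ThmD.Sep
import Pool.Agent.H20.ThmD.Clique
import Pool.Agent.H20.ThmD.PathC
import Pool.Agent.H20.ThmD.Forest

/-! Consequences for weights, for pathwidth bounded classes and for forests. -/

set_option autoImplicit false
set_option linter.unusedSectionVars false

namespace Pool.Agent.H20.ThmD

open Finset Pool.Agent.H112R3.TA Pool.Agent.H20

variable {V : Type} [Fintype V] [DecidableEq V] {G : SimpleGraph V}

/-- all notions of large sets have separators dominated by `K` vertices -/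
def DS (G : SimpleGraph V) (K : ℕ) : Prop :=
  ∀ Big : Finset V → Prop, (∀ A B : Finset V, A ⊆ B → Big A → Big B) →
      (∀ A B : Finset V, Big A → Big B → (A ∩ B).Nonempty) →
      ∃ Y : Finset V, Y.card ≤ K ∧
        ∀ s, s ∉ Y.biUnion (cnb G) → ¬ Big (comp G (Y.biUnion (cnb G)) s)

lemma DS.mono {K K' : ℕ} (h : DS G K) (hK : K ≤ K') : DS G K' := by
  intro Big h1 h2
  obtain ⟨Y, hY, h3⟩ := h Big h1 h2
  exact ⟨Y, hY.trans hK, h3⟩

lemma walk_reach {Q : Finset V} {C : Set V} (hC : ∀ v ∈ C, v ∉ Q) {x y : C}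
    (w : (G.induce C).Walk x y) : (del G Q).Reachable x.1 y.1 := by
  induction w with
  | nil => exact SimpleGraph.Reachable.refl _
  | @cons u v w h p ih =>
    refine (SimpleGraph.Adj.reachable ?_).trans ih
    exact ⟨h, hC _ u.2, hC _ v.2⟩

theorem DS.weight {K : ℕ} (h : DS G K) (w : V → ℝ) (hw : ∀ v, 0 ≤ w v) :
    ∃ Y : Finset V, Y.card ≤ K ∧ ∀ C : Finset V, (G.induce (C : Set V)).Connected →
      (∀ v ∈ C, ∀ y ∈ Y, y ≠ v ∧ ¬ G.Adj y v) → 2 * ∑ v ∈ C, w v ≤ ∑ v, w v := by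
  obtain ⟨Y, hY, h1⟩ := h (fun A => ∑ v, w v < 2 * ∑ v ∈ A, w v)
    (fun A B hAB hA => by
      have : ∑ v ∈ A, w v ≤ ∑ v ∈ B, w v :=
        Finset.sum_le_sum_of_subset_of_nonneg hAB (fun i _ _ => hw i)
      linarith)
    (fun A B hA hB => by
      by_contra hcon
      rw [not_nonempty_iff_eq_empty] at hcon
      have hdis : Disjoint A B := disjoint_iff_inter_eq_empty.2 hcon
      have h2 : ∑ v ∈ A ∪ B, w v ≤ ∑ v, w v :=
        Finset.sum_le_sum_of_subset_of_nonneg (subset_univ _) (fun i _ _ => hw i)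
      rw [Finset.sum_union hdis] at h2
      linarith)
  refine ⟨Y, hY, ?_⟩
  intro C hC hCY
  have hCQ : ∀ v ∈ (C : Set V), v ∉ Y.biUnion (cnb G) := by
    intro v hv hv'
    obtain ⟨y, hy, hyv⟩ := mem_biUnion.1 hv'
    have := hCY v (mem_coe.1 hv) y hy
    rcases mem_cnb.1 hyv with h2 | h2
    · exact this.2 h2
    · exact this.1 h2
  obtain ⟨⟨s, hs⟩⟩ := hC.nonempty
  have h2 := h1 s (hCQ s hs)
  have hsub : C ⊆ comp G (Y.biUnion (cnb G)) s := by
    intro v hv
    rw [mem_comp]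
    obtain ⟨p⟩ := hC.preconnected ⟨s, hs⟩ ⟨v, mem_coe.2 hv⟩
    exact walk_reach hCQ p
  have h3 : ∑ v ∈ C, w v ≤ ∑ v ∈ comp G (Y.biUnion (cnb G)) s, w v :=
    Finset.sum_le_sum_of_subset_of_nonneg hsub (fun i _ _ => hw i)
  push Not at h2
  linarith

/-- bounded pathwidth for the induced subgraphs of clique number at most four -/
theorem DS_of_pw {p : ℕ}
    (h : ∀ S : Finset V, (∀ C : Finset V, C ⊆ S → G.IsClique (C : Set V) → C.card ≤ 4) →
      HasPD G S p) : DS G (KK (4 * (p + 1) * (p + 1)) p 1) := by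
  have hC : ∀ k c B, ¬ Cst G (p + 1) k c B := by
    intro k c B hc
    obtain ⟨n, X, h1, h2, h3, h4, h5⟩ := h (univ.image c ∪ univ.biUnion B)
      (fun C hCS hcl => hc.clique C hCS hcl)
    obtain ⟨i, hi⟩ := hc.pw (by omega) Subset.rfl X h2 h3 h4
    have := h5 i
    omega
  have hS : ∀ L l, ¬ St G p L l := by
    intro L l hL
    obtain ⟨n, X, h1, h2, h3, h4, h5⟩ := h L (fun C hCS hcl => (hL.clique C hCS hcl).trans (by omega))
    obtain ⟨i, hi⟩ := hL.pw Subset.rfl X h2 h3 h4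
    have h6 := h5 i
    have h7 : (X i ∩ L).card ≤ (X i).card := card_le_card inter_subset_left
    omega
  intro Big h1 h2
  exact dom_sep_of (Nat.one_le_iff_ne_zero.2 (by positivity)) (NC_of_Cst (by omega) hC) hS
    Big h1 h2

/-- star-free graphs without a forest as induced minor -/
theorem DS_of_star_forest {α : Type} [Fintype α] {H : SimpleGraph α} (hH : H.IsAcyclic) {t : ℕ}
    (ht : 1 ≤ t)
    (hstar : ∀ (v : V) (S : Finset V), S.card = t → (∀ x ∈ S, G.Adj v x) →
        ∃ x ∈ S, ∃ y ∈ S, x ≠ y ∧ G.Adj x y)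
    (hG : ¬ IsInducedMinor H G) : DS G ((9 * t) ^ (Fintype.card α + 3)) := by
  have hS : ∀ L l, ¬ St G (Fintype.card α + 1) L l := fun L l hL =>
    hG (forest_model H hH le_rfl hL)
  have h1 : DS G (KK (2 * t + 1) (Fintype.card α + 1) 1) := fun Big h1 h2 =>
    dom_sep_of (by omega) (NC_of_star ht hstar) hS Big h1 h2
  refine h1.mono ((KK_le _ _).trans ?_)
  exact Nat.pow_le_pow_left (by omega) _

/-- graphs without a forest and without a balanced biclique as induced minors -/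
theorem DS_of_biclique_forest {α : Type} [Fintype α] {H : SimpleGraph α} (hH : H.IsAcyclic)
    {t : ℕ} (ht : 1 ≤ t) (hK : ¬ IsInducedMinor (completeBipartiteGraph (Fin t) (Fin t)) G)
    (hG : ¬ IsInducedMinor H G) : DS G ((11 * t ^ 2) ^ (Fintype.card α + 3)) := by
  have hS : ∀ L l, ¬ St G (Fintype.card α + 1) L l := fun L l hL =>
    hG (forest_model H hH le_rfl hL)
  have hC : ∀ k c B, ¬ Cst G t k c B := fun k c B hc => hK (hc.minor ht)
  have h1 : DS G (KK (4 * t * t) (Fintype.card α + 1) 1) := fun Big h1 h2 =>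
    dom_sep_of (Nat.one_le_iff_ne_zero.2 (by positivity)) (NC_of_Cst ht hC) hS Big h1 h2
  refine h1.mono ((KK_le _ _).trans ?_)
  refine Nat.pow_le_pow_left ?_ _
  have : 1 ≤ t ^ 2 := Nat.one_le_pow _ _ ht
  nlinarith

end Pool.Agent.H20.ThmD
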