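import Pool.Agent.H20.ThmD.Basic

/-! Branching structures in graphs without dominated balanced separators. -/

set_option autoImplicit false
set_option linter.unusedSectionVars false

namespace Pool.Agent.H20.ThmD

open Finset Pool.Agent.H112R3.TA Pool.Agent.H20

variable {V : Type} [Fintype V] [DecidableEq V] {G : SimpleGraph V}

section big

variable {Big : Finset V → Prop}

/-- the conclusion of the main lemma -/
def Con (G : SimpleGraph V) (Big : Finset V → Prop) (k g : ℕ) (U J : Finset V) (L : Finset V)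
    (l : V) : Prop :=
  St G k L l ∧ l ∈ U ∧ l ∉ J ∧ (∃ x ∈ J, G.Adj x l) ∧
    ∃ Y, BC G Big (U \ NN G J) Y ∧ L.erase l ⊆ Y ∧
      ∃ S, Dm G S g ∧ ∀ B, BC G Big (Y \ S) B → ∀ x ∈ L.erase l, ∀ y ∈ B, ¬ G.Adj x y ∧ x ≠ y

/-- a leg at the path with vertex set `Q` -/
def Leg (G : SimpleGraph V) (Big : Finset V → Prop) (k g : ℕ) (W Q Z : Finset V) (a : V)
    (A S : Finset V) : Prop :=
  St G k A a ∧ Dm G S g ∧ ∃ B T, BC G Big (W \ Z) B ∧ a ∈ B ∧ a ∉ Q ∧ (∃ x ∈ Q, G.Adj x a) ∧
    BC G Big (B \ NN G Q) T ∧ A.erase a ⊆ T ∧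
    ∀ C, BC G Big (T \ S) C → ∀ x ∈ A.erase a, ∀ y ∈ C, ¬ G.Adj x y ∧ x ≠ y

lemma leg_exists (hmono : ∀ A B : Finset V, A ⊆ B → Big A → Big B)
    (hint : ∀ A B : Finset V, Big A → Big B → (A ∩ B).Nonempty) {k g K c : ℕ}
    (ih : ∀ U J : Finset V, Cn G U → J ⊆ U → J.Nonempty → Hv G Big U K → Ins G Big U J c →
      ∃ L l, Con G Big k g U J L l)
    {W Q : Finset V} (hQW : Q ⊆ W) {d : ℕ} (hH : Hv G Big W (K + d))
    (hIns : Ins G Big W Q c) (hnot : ¬ Ins G Big W Q d) (Z : Finset V) (hZ : Dm G Z d) :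
    ∃ a A S, Leg G Big k g W Q Z a A S := by
  classical
  obtain ⟨B, hB, x0, hx0, y0, hy0, hxy0⟩ := not_Ins hnot hZ
  have hBW : B ⊆ W := hB.sub.trans sdiff_subset
  let J : Finset V := Q.filter (fun x => x ∈ B ∨ ∃ y ∈ B, G.Adj x y)
  have hJQ : J ⊆ Q := filter_subset _ _
  have hJn : J.Nonempty := by
    refine ⟨x0, mem_filter.2 ⟨hx0, ?_⟩⟩
    rcases hxy0 with h | h
    · exact Or.inr ⟨y0, hy0, h⟩
    · exact Or.inl (h ▸ hy0)
  have hout : ∀ x ∈ Q, x ∉ J → ∀ y ∈ B, ¬ G.Adj x y ∧ x ≠ y := by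
    intro x hx hxJ y hy
    refine ⟨fun h => hxJ (mem_filter.2 ⟨hx, Or.inr ⟨y, hy, h⟩⟩), ?_⟩
    rintro rfl
    exact hxJ (mem_filter.2 ⟨hx, Or.inl hy⟩)
  have hU : Cn G (B ∪ J) := by
    obtain ⟨b, hb⟩ := hB.nonempty hint
    have key : ∀ x ∈ B ∪ J, (del G (univ \ (B ∪ J))).Reachable x b := by
      intro x hx
      rcases mem_union.1 hx with h | h
      · exact cn_reach hB.cn subset_union_left h hb
      · rcases (mem_filter.1 h).2 with h1 | ⟨y, hy, hxy⟩
        · exact cn_reach hB.cn subset_union_left h1 hb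
        · refine (SimpleGraph.Adj.reachable ?_).trans (cn_reach hB.cn subset_union_left hy hb)
          exact ⟨hxy, by simp only [mem_sdiff, mem_univ, true_and, not_not]; exact hx,
            by simp only [mem_sdiff, mem_univ, true_and, not_not]; exact mem_union_left _ hy⟩
    intro x hx y hy
    exact (key x hx).trans (key y hy).symm
  have hUW : B ∪ J ⊆ W := union_subset hBW (hJQ.trans hQW)
  have hHU : Hv G Big (B ∪ J) K := by
    intro S hS
    obtain ⟨E, hE⟩ := hH (Z ∪ S) ((hZ.union hS).mono Subset.rfl (by omega))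
    have h1 : E ⊆ B := hB.mono hint hE (sdiff_subset_sdiff Subset.rfl subset_union_left)
    obtain ⟨E', hE', _⟩ := BC_of hmono hint hE.cn hE.big (U := (B ∪ J) \ S) (by
      intro x hx
      have := hE.sub hx
      rw [mem_sdiff, mem_union, not_or] at this
      exact mem_sdiff.2 ⟨mem_union_left _ (h1 hx), this.2.2⟩)
    exact ⟨E', hE'⟩
  obtain ⟨A, a, hSt, haU, haJ, ⟨x, hxJ, hxa⟩, T, hT, hAT, S, hS, hSC⟩ :=
    ih (B ∪ J) J hU subset_union_right hJn hHU
      (hIns.mono hmono hint hUW hJQ le_rfl)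
  have haB : a ∈ B := (mem_union.1 haU).resolve_right haJ
  have haQ : a ∉ Q := fun h => haJ (mem_filter.2 ⟨h, Or.inl haB⟩)
  have hset : (B ∪ J) \ NN G J = B \ NN G Q := by
    ext y
    rw [mem_sdiff, mem_sdiff, mem_union]
    constructor
    · rintro ⟨h1, h2⟩
      have hyB : y ∈ B := by
        rcases h1 with h1 | h1
        · exact h1
        · exact absurd (mem_NN.2 ⟨y, h1, Or.inr rfl⟩) h2
      refine ⟨hyB, fun h3 => ?_⟩
      obtain ⟨x, hx, hxy⟩ := mem_NN.1 h3
      by_cases hxJ : x ∈ J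
      · exact h2 (mem_NN.2 ⟨x, hxJ, hxy⟩)
      · have := hout x hx hxJ y hyB
        tauto
    · rintro ⟨h1, h2⟩
      exact ⟨Or.inl h1, fun h3 => h2 (NN_mono hJQ h3)⟩
  rw [hset] at hT
  exact ⟨a, A, S, hSt, hS, B, T, hB, haB, haQ, ⟨x, hJQ hxJ, hxa⟩, hT, hAT, hSC⟩

/-- the sequence of the deleted sets -/
noncomputable def Zs (G : SimpleGraph V) (fa : Finset V → V) (fS : Finset V → Finset V) : ℕ → Finset V
  | 0 => ∅
  | i + 1 => Zs G fa fS i ∪ (fS (Zs G fa fS i) ∪ NN G {fa (Zs G fa fS i)})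

lemma Zs_mono (fa : Finset V → V) (fS : Finset V → Finset V) {i j : ℕ} (h : i ≤ j) :
    Zs G fa fS i ⊆ Zs G fa fS j := by
  induction h with
  | refl => exact Subset.rfl
  | step _ ih => exact ih.trans subset_union_left

lemma St_root_mem {k : ℕ} {L : Finset V} {l : V} (h : St G k L l) : l ∈ L := by
  cases k with
  | zero =>
    have : L = {l} := h
    rw [this]
    exact mem_singleton_self l
  | succ k =>
    obtain ⟨q, r, A, a, h1, h2, h3, h4, h5, h6, h7, h8, h9, h10⟩ := h
    rw [h10, mem_union, mem_image]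
    exact Or.inl ⟨0, mem_range.2 (by omega), h2⟩

theorem main_lemma (hmono : ∀ A B : Finset V, A ⊆ B → Big A → Big B)
    (hint : ∀ A B : Finset V, Big A → Big B → (A ∩ B).Nonempty)
    {N : ℕ} (hN : 1 ≤ N) (hNC : NC G N) (k : ℕ) :
    ∀ (c : ℕ) (U J : Finset V), Cn G U → J ⊆ U → J.Nonempty → Hv G Big U (KK N k c) →
      Ins G Big U J c → ∃ L l, Con G Big k (gg N k) U J L l := by
  classical
  induction k with
  | zero =>
    intro c U J hU hJU hJ hH hI
    obtain ⟨Y, hY⟩ := exists_far hmono hint hH hI Dm_empty (le_refl _)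
    rw [union_empty] at hY
    obtain ⟨x, hx⟩ := hJ
    obtain ⟨y, hy⟩ := hY.nonempty hint
    have hYU : Y ⊆ U := hY.sub.trans sdiff_subset
    have hYJ : ∀ z ∈ Y, z ∉ J := fun z hz hzJ =>
      (mem_sdiff.1 (hY.sub hz)).2 (mem_NN.2 ⟨z, hzJ, Or.inr rfl⟩)
    obtain ⟨a, b, hab, ha, hb, _⟩ := exists_cross (C := {v | v ∉ J}) (hU x (hJU hx) y (hYU hy))
      (by simpa using hx) (hYJ y hy)
    have haJ : a ∈ J := by simpa using ha
    have hbU : b ∈ U := by
      have := hab.2.2
      simpa using this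
    refine ⟨{b}, b, rfl, hbU, hb, ⟨a, haJ, hab.1⟩, Y, hY, ?_, ∅, Dm_empty, ?_⟩
    · simp
    · intro B _ z hz
      simp at hz
  | succ k ih =>
    intro c U J hU hJU hJ hH hI
    set g := gg N k with hg
    set C := N * (g + 1) with hC
    have hC1 : 1 ≤ C := Nat.one_le_iff_ne_zero.2 (by positivity)
    set K := KK N k (C + 1) with hK
    have hKK : KK N (k + 1) c = c + 2 + C + K := rfl
    rw [hKK] at hH
    -- the big component away from `J`
    obtain ⟨Y, hY⟩ := exists_far hmono hint hH hI Dm_empty (by omega)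
    rw [union_empty] at hY
    have hYU : Y ⊆ U := hY.sub.trans sdiff_subset
    have hYJ : ∀ z ∈ Y, z ∉ NN G J := fun z hz => (mem_sdiff.1 (hY.sub hz)).2
    obtain ⟨x0, hx0⟩ := hJ
    obtain ⟨y0, hy0⟩ := hY.nonempty hint
    obtain ⟨p, b, hpb, hpY, hbY, _⟩ := exists_cross (C := ((Y : Finset V) : Set V))
      (hU x0 (hJU hx0) y0 (hYU hy0))
      (fun h => hYJ x0 (mem_coe.1 h) (mem_NN.2 ⟨x0, hx0, Or.inr rfl⟩)) (mem_coe.2 hy0)
    rw [mem_coe] at hpY hbY
    have hpU : p ∈ U := by
      have := hpb.2.1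
      simpa using this
    have hpN : p ∈ NN G J := by
      by_contra hcon
      exact hpY (hY.closed hbY (mem_sdiff.2 ⟨hpU, hcon⟩) hpb.1.symm)
    have hpJ : p ∉ J := fun h => hYJ b hbY (mem_NN.2 ⟨p, h, Or.inl hpb.1⟩)
    obtain ⟨x1, hx1, hx1p⟩ : ∃ x ∈ J, G.Adj x p := by
      obtain ⟨x, hx, hxp⟩ := mem_NN.1 hpN
      rcases hxp with h | h
      · exact ⟨x, hx, h⟩
      · exact absurd (h ▸ hx) hpJ
    -- the big component away from `J` and `p`
    have hI' : Ins G Big U (J ∪ {p}) (c + 1) := hI.union hmono hint (Ins_single p)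
    obtain ⟨D, hD⟩ := exists_far hmono hint hH hI' Dm_empty (by omega)
    rw [union_empty] at hD
    have hDY : D ⊆ Y := hY.mono hint hD (sdiff_subset_sdiff Subset.rfl (NN_mono subset_union_left))
    have hDp : ∀ z ∈ D, ¬ G.Adj p z ∧ p ≠ z := by
      intro z hz
      have := (mem_sdiff.1 (hD.sub hz)).2
      rw [mem_NN] at this
      push Not at this
      exact this p (mem_union_right _ (mem_singleton_self p))
    obtain ⟨d0, hd0⟩ := hD.nonempty hint
    have hpYc : Cn G (insert p Y) := cn_insert hY.cn hbY hpb.1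
    obtain ⟨w, z, hwz, hwD, hzD, _⟩ := exists_cross (C := ((D : Finset V) : Set V))
      (hpYc p (mem_insert_self _ _) d0 (mem_insert_of_mem (hDY hd0)))
      (fun h => (hDp p (mem_coe.1 h)).2 rfl) (mem_coe.2 hd0)
    rw [mem_coe] at hwD hzD
    have hwp : w ≠ p := by
      rintro rfl
      exact (hDp z hzD).1 hwz.1
    have hwY : w ∈ Y := by
      have h1 := hwz.2.1
      simp only [mem_sdiff, mem_univ, true_and, not_not] at h1
      exact (mem_insert.1 h1).resolve_left hwp
    have hpw : G.Adj p w := by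
      have hwN : w ∈ NN G (J ∪ {p}) := by
        by_contra hcon
        exact hwD (hD.closed hzD (mem_sdiff.2 ⟨hYU hwY, hcon⟩) hwz.1.symm)
      obtain ⟨x, hx, hxw⟩ := mem_NN.1 hwN
      rcases mem_union.1 hx with hx | hx
      · exact absurd (mem_NN.2 ⟨x, hx, hxw⟩) (hYJ w hwY)
      · rw [mem_singleton] at hx
        subst hx
        rcases hxw with h | h
        · exact h
        · exact absurd h.symm hwp
    set W := insert w D with hW
    have hWc : Cn G W := cn_insert hD.cn hzD hwz.1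
    have hWY : W ⊆ Y := insert_subset hwY hDY
    have hHW : Hv G Big W (K + C) := by
      intro S hS
      obtain ⟨E, hE⟩ := exists_far hmono hint hH hI' hS (by omega)
      have h1 : E ⊆ D := hD.mono hint hE (sdiff_subset_sdiff Subset.rfl subset_union_left)
      obtain ⟨E', hE', _⟩ := BC_of hmono hint hE.cn hE.big (U := W \ S) (by
        intro x hx
        have := hE.sub hx
        rw [mem_sdiff, mem_union, not_or] at this
        exact mem_sdiff.2 ⟨mem_insert_of_mem (h1 hx), this.2.2⟩)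
      exact ⟨E', hE'⟩
    have hHW' : Hv G Big W C := by
      intro S hS
      exact hHW S (hS.mono Subset.rfl (by omega))
    -- the path
    obtain ⟨q, r, hq0, hIP, hqW, hnot, hyes⟩ := path_lemma hmono hint hWc (mem_insert_self w D)
      hC1 hHW'
    set Q := (range (r + 1)).image q with hQ
    have hQmem : ∀ j ≤ r, q j ∈ Q := fun j hj => mem_image_of_mem _ (mem_range.2 (by omega))
    have hQmem' : ∀ x ∈ Q, ∃ j ≤ r, q j = x := by
      intro x hx
      obtain ⟨j, hj, rfl⟩ := mem_image.1 hx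
      exact ⟨j, by rw [mem_range] at hj; omega, rfl⟩
    have hQW : Q ⊆ W := by
      intro x hx
      obtain ⟨j, hj, rfl⟩ := hQmem' x hx
      exact hqW j hj
    -- the legs
    have hleg : ∀ Z : Finset V, Dm G Z C → ∃ a A S, Leg G Big k g W Q Z a A S :=
      leg_exists hmono hint (ih (C + 1)) hQW hHW hyes hnot
    have hleg' : ∃ (fa : Finset V → V) (fA fS : Finset V → Finset V), ∀ Z, Dm G Z C →
        Leg G Big k g W Q Z (fa Z) (fA Z) (fS Z) := by
      have : ∀ Z : Finset V, ∃ t : V × Finset V × Finset V, Dm G Z C →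
          Leg G Big k g W Q Z t.1 t.2.1 t.2.2 := by
        intro Z
        by_cases hZ : Dm G Z C
        · obtain ⟨a, A, S, h⟩ := hleg Z hZ
          exact ⟨(a, A, S), fun _ => h⟩
        · exact ⟨(p, ∅, ∅), fun h => absurd h hZ⟩
      choose f hf using this
      exact ⟨fun Z => (f Z).1, fun Z => (f Z).2.1, fun Z => (f Z).2.2, hf⟩
    obtain ⟨fa, fA, fS, hf⟩ := hleg'
    set Z := Zs G fa fS with hZ
    have hZD : ∀ i ≤ N, Dm G (Z i) (i * (g + 1)) := by
      intro i
      induction i with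
      | zero =>
        intro _
        rw [zero_mul]
        exact Dm_empty
      | succ i ihi =>
        intro hi
        have h1 := ihi (by omega)
        have h2 := (hf (Z i) (h1.mono Subset.rfl (by
          rw [hC]; exact Nat.mul_le_mul_right _ (by omega)))).2.1
        have h3 : Dm G (NN G {fa (Z i)}) 1 := ⟨{fa (Z i)}, by simp, Subset.rfl⟩
        have h4 := h1.union (h2.union h3)
        exact h4.mono Subset.rfl (by rw [add_mul, one_mul])
    have hZC : ∀ i ≤ N, Dm G (Z i) C := fun i hi =>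
      (hZD i hi).mono Subset.rfl (by rw [hC]; exact Nat.mul_le_mul_right _ hi)
    set a : ℕ → V := fun i => fa (Z i) with ha
    set A : ℕ → Finset V := fun i => fA (Z i) with hA
    set S : ℕ → Finset V := fun i => fS (Z i) with hS
    have hL : ∀ i < N, Leg G Big k g W Q (Z i) (a i) (A i) (S i) := fun i hi =>
      hf (Z i) (hZC i hi.le)
    have hZmono : ∀ i j, i ≤ j → Z i ⊆ Z j := fun i j h => Zs_mono fa fS h
    have hSZ : ∀ i j, i < j → S i ⊆ Z j := by
      intro i j h
      refine Subset.trans ?_ (hZmono (i + 1) j h)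
      exact subset_union_left.trans subset_union_right
    have haZ : ∀ i j, i < j → NN G {a i} ⊆ Z j := by
      intro i j h
      refine Subset.trans ?_ (hZmono (i + 1) j h)
      exact subset_union_right.trans subset_union_right
    have hBT : ∀ i, ∃ B T : Finset V, i < N → (BC G Big (W \ Z i) B ∧ a i ∈ B ∧ a i ∉ Q ∧
        (∃ x ∈ Q, G.Adj x (a i)) ∧ BC G Big (B \ NN G Q) T ∧ (A i).erase (a i) ⊆ T ∧
        ∀ C, BC G Big (T \ S i) C → ∀ x ∈ (A i).erase (a i), ∀ y ∈ C, ¬ G.Adj x y ∧ x ≠ y) := by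
      intro i
      by_cases hi : i < N
      · obtain ⟨_, _, B, T, h⟩ := hL i hi
        exact ⟨B, T, fun _ => h⟩
      · exact ⟨∅, ∅, fun h => absurd h hi⟩
    choose B T hBT using hBT
    have hAB : ∀ i < N, ∀ x ∈ A i, x ∈ B i := by
      intro i hi x hx
      obtain ⟨h1, h2, h3, h4, h5, h6, h7⟩ := hBT i hi
      by_cases hxa : x = a i
      · rw [hxa]; exact h2
      · exact (mem_sdiff.1 (h5.sub (h6 (mem_erase.2 ⟨hxa, hx⟩)))).1
    have hAW : ∀ i < N, ∀ x ∈ A i, x ∈ W := by
      intro i hi x hx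
      exact (mem_sdiff.1 ((hBT i hi).1.sub (hAB i hi x hx))).1
    have hAQ : ∀ i < N, ∀ x ∈ A i, x ∉ Q := by
      intro i hi x hx hxQ
      obtain ⟨h1, h2, h3, h4, h5, h6, h7⟩ := hBT i hi
      by_cases hxa : x = a i
      · exact h3 (hxa ▸ hxQ)
      · exact (mem_sdiff.1 (h5.sub (h6 (mem_erase.2 ⟨hxa, hx⟩)))).2
          (mem_NN.2 ⟨x, hxQ, Or.inr rfl⟩)
    have hBB : ∀ i j, i < j → j < N → B j ⊆ B i := by
      intro i j hij hj
      exact (hBT i (hij.trans hj)).1.mono hint (hBT j hj).1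
        (sdiff_subset_sdiff Subset.rfl (hZmono i j hij.le))
    have hTT : ∀ i j, i < j → j < N → T j ⊆ T i := by
      intro i j hij hj
      exact (hBT i (hij.trans hj)).2.2.2.2.1.mono hint (hBT j hj).2.2.2.2.1
        (sdiff_subset_sdiff (hBB i j hij hj) Subset.rfl)
    have hTZ : ∀ j < N, ∀ y ∈ T j, y ∉ Z j := by
      intro j hj y hy
      have h1 := (mem_sdiff.1 ((hBT j hj).2.2.2.2.1.sub hy)).1
      exact (mem_sdiff.1 ((hBT j hj).1.sub h1)).2
    have hlegs : Legs G k N a A := by
      refine ⟨fun i hi => (hL i hi).1, ?_⟩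
      intro j hj i hij
      have hi : i < N := hij.trans hj
      have hfirst : ∀ x ∈ A j, ¬ G.Adj (a i) x ∧ a i ≠ x := by
        intro x hx
        have h1 := (mem_sdiff.1 ((hBT j hj).1.sub (hAB j hj x hx))).2
        have h2 : x ∉ NN G {a i} := fun h => h1 (haZ i j hij h)
        rw [mem_NN] at h2
        push Not at h2
        exact h2 (a i) (mem_singleton_self _)
      refine ⟨hfirst, ?_, ?_⟩
      · intro h
        by_cases haa : a j = a i
        · exact (hfirst (a j) (St_root_mem (hL j hj).1)).2 haa.symm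
        · have h1 := (hBT i hi).2.2.2.2.2.1 (mem_erase.2 ⟨haa, h⟩)
          have h2 := (mem_sdiff.1 ((hBT i hi).2.2.2.2.1.sub h1)).2
          obtain ⟨x, hx, hxa⟩ := (hBT j hj).2.2.2.1
          exact h2 (mem_NN.2 ⟨x, hx, Or.inl hxa⟩)
      · intro x hx y hy
        obtain ⟨C', hC', hTC⟩ := BC_of hmono hint (hBT j hj).2.2.2.2.1.cn
          (hBT j hj).2.2.2.2.1.big (U := T i \ S i) (by
            intro z hz
            exact mem_sdiff.2 ⟨hTT i j hij hj hz, fun h => hTZ j hj z hz (hSZ i j hij h)⟩)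
        exact (hBT i hi).2.2.2.2.2.2 C' hC' x hx y (hTC ((hBT j hj).2.2.2.2.2.1 hy))
    obtain ⟨i0, i1, i2, h01, h12, h2N, hc01, hc02, hc12⟩ := hNC k a A hlegs
    -- anticompleteness of two legs
    have hAC : ∀ i j, i < j → j < N → ¬ Ct G a A i j → AC G (A i) (A j) := by
      intro i j hij hj hct x hx y hy
      obtain ⟨h1, h2, h3⟩ := hlegs.2 j hj i hij
      by_cases hxa : x = a i
      · rw [hxa]; exact h1 y hy
      · by_cases hya : y = a j
        · rw [hya]
          refine ⟨fun h => hct ⟨x, mem_erase.2 ⟨hxa, hx⟩, h.symm⟩, ?_⟩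
          rintro rfl
          exact h2 hx
        · exact h3 x (mem_erase.2 ⟨hxa, hx⟩) y (mem_erase.2 ⟨hya, hy⟩)
    have hACs : ∀ i j, AC G (A i) (A j) → AC G (A j) (A i) := by
      intro i j h x hx y hy
      have := h y hy x hx
      exact ⟨fun h' => this.1 h'.symm, this.2.symm⟩
    have a01 := hAC i0 i1 h01 (h12.trans h2N) hc01
    have a02 := hAC i0 i2 (h01.trans h12) h2N hc02
    have a12 := hAC i1 i2 h12 h2N hc12
    let idx : Fin 3 → ℕ := ![i0, i1, i2]
    have hidx : ∀ i, idx i < N := by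
      intro i
      fin_cases i
      · exact h01.trans (h12.trans h2N)
      · exact h12.trans h2N
      · exact h2N
    have hACi : ∀ i j : Fin 3, i ≠ j → AC G (A (idx i)) (A (idx j)) := by
      intro i j hij
      fin_cases i <;> fin_cases j
      · exact absurd rfl hij
      · exact a01
      · exact a02
      · exact hACs _ _ a01
      · exact absurd rfl hij
      · exact a12
      · exact hACs _ _ a02
      · exact hACs _ _ a12
      · exact absurd rfl hij
    -- the new structure
    let q' : ℕ → V := fun n => if n = 0 then p else q (n - 1)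
    have hq'0 : q' 0 = p := rfl
    have hq's : ∀ n, q' (n + 1) = q n := fun n => by simp [q']
    have hpW : p ∉ W := fun h => hpY (hWY h)
    have hWD : ∀ x ∈ W, x ≠ w → x ∈ D := fun x hx hxw => (mem_insert.1 hx).resolve_left hxw
    have hIP' : IP G q' (r + 1) := by
      intro i j hij hj
      obtain ⟨j, rfl⟩ : ∃ j', j = j' + 1 := ⟨j - 1, by omega⟩
      rw [hq's]
      rcases Nat.eq_zero_or_pos i with h | h
      · subst h
        rw [hq'0]
        constructor
        · constructor
          · intro hadj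
            by_contra hne
            have hj0 : j ≠ 0 := by omega
            have hqj : q j ≠ w := by
              intro h
              rw [← hq0] at h
              exact (hIP 0 j (by omega) (by omega)).2 h.symm
            exact (hDp _ (hWD _ (hqW j (by omega)) hqj)).1 hadj
          · intro h
            have : j = 0 := by omega
            subst this
            rw [hq0]
            exact hpw
        · rintro h
          exact hpW (h ▸ hqW j (by omega))
      · obtain ⟨i, rfl⟩ : ∃ i', i = i' + 1 := ⟨i - 1, by omega⟩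
        rw [hq's]
        have := hIP i j (by omega) (by omega)
        refine ⟨?_, this.2⟩
        rw [this.1]
        omega
    let L : Finset V := (range (r + 1 + 1)).image q' ∪ univ.biUnion (fun i : Fin 3 => A (idx i))
    have hLmem : ∀ x ∈ L.erase p, x ∈ Q ∨ ∃ i : Fin 3, x ∈ A (idx i) := by
      intro x hx
      obtain ⟨hxp, hx⟩ := mem_erase.1 hx
      rcases mem_union.1 hx with h | h
      · obtain ⟨j, hj, rfl⟩ := mem_image.1 h
        left
        rcases Nat.eq_zero_or_pos j with h0 | h0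
        · subst h0
          exact absurd rfl hxp
        · obtain ⟨j, rfl⟩ : ∃ j', j = j' + 1 := ⟨j - 1, by omega⟩
          rw [hq's]
          exact hQmem j (by rw [mem_range] at hj; omega)
      · obtain ⟨i, _, hi⟩ := mem_biUnion.1 h
        exact Or.inr ⟨i, hi⟩
    have hSt : St G (k + 1) L p := by
      refine ⟨q', r + 1, fun i => A (idx i), fun i => a (idx i), by omega, hq'0, hIP',
        fun i => (hL _ (hidx i)).1, hACi, ?_, ?_, ?_, ?_, rfl⟩
      · intro i j hj hmem
        rcases Nat.eq_zero_or_pos j with h0 | h0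
        · subst h0
          rw [hq'0] at hmem
          exact hpW (hAW _ (hidx i) _ hmem)
        · obtain ⟨j, rfl⟩ : ∃ j', j = j' + 1 := ⟨j - 1, by omega⟩
          rw [hq's] at hmem
          exact hAQ _ (hidx i) _ hmem (hQmem j (by omega))
      · intro i x hx
        have hxw : x ≠ w := by
          rintro rfl
          refine hAQ _ (hidx i) _ hx ?_
          rw [← hq0]
          exact hQmem 0 (by omega)
        exact (hDp x (hWD x (hAW _ (hidx i) _ hx) hxw)).1
      · intro i
        obtain ⟨x, hx, hxa⟩ := (hBT _ (hidx i)).2.2.2.1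
        obtain ⟨j, hj, rfl⟩ := hQmem' x hx
        exact ⟨j + 1, by omega, by omega, by rw [hq's]; exact hxa⟩
      · intro i x hx hxa j hj hadj
        have hxT := (hBT _ (hidx i)).2.2.2.2.2.1 (mem_erase.2 ⟨hxa, hx⟩)
        have hxN := (mem_sdiff.1 ((hBT _ (hidx i)).2.2.2.2.1.sub hxT)).2
        rcases Nat.eq_zero_or_pos j with h0 | h0
        · subst h0
          rw [hq'0] at hadj
          have hxw : x ≠ w := by
            rintro rfl
            refine hAQ _ (hidx i) _ hx ?_
            rw [← hq0]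
            exact hQmem 0 (by omega)
          exact (hDp x (hWD x (hAW _ (hidx i) _ hx) hxw)).1 hadj
        · obtain ⟨j, rfl⟩ : ∃ j', j = j' + 1 := ⟨j - 1, by omega⟩
          rw [hq's] at hadj
          exact hxN (mem_NN.2 ⟨q j, hQmem j (by omega), Or.inl hadj⟩)
    obtain ⟨SQ, hSQ, hSQ'⟩ := hyes
    refine ⟨L, p, hSt, hpU, hpJ, ⟨x1, hx1, hx1p⟩, Y, hY, ?_,
      NN G {p} ∪ SQ ∪ Z N, ?_, ?_⟩
    · intro x hx
      rcases hLmem x hx with h | ⟨i, h⟩
      · exact hWY (hQW h)
      · exact hWY (hAW _ (hidx i) _ h)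
    · have h3 : Dm G (NN G {p}) 1 := ⟨{p}, by simp, Subset.rfl⟩
      refine ((h3.union hSQ).union (hZC N le_rfl)).mono Subset.rfl ?_
      change 1 + (C + 1) + C ≤ 2 + 2 * C
      omega
    · intro E hE
      have hEY : E ⊆ Y := hE.sub.trans sdiff_subset
      have hEout : ∀ y ∈ E, y ∉ NN G {p} ∧ y ∉ SQ ∧ y ∉ Z N := by
        intro y hy
        have := (mem_sdiff.1 (hE.sub hy)).2
        rw [mem_union, mem_union, not_or, not_or] at this
        exact ⟨this.1.1, this.1.2, this.2⟩
      have hED : E ⊆ D := by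
        refine hD.absorb hint hE.cn hE.big ?_
        intro y hy
        refine mem_sdiff.2 ⟨hYU (hEY hy), fun h => ?_⟩
        obtain ⟨x, hx, hxy⟩ := mem_NN.1 h
        rcases mem_union.1 hx with hx | hx
        · exact hYJ y (hEY hy) (mem_NN.2 ⟨x, hx, hxy⟩)
        · exact (hEout y hy).1 (mem_NN.2 ⟨x, hx, hxy⟩)
      have hEW : E ⊆ W := hED.trans (subset_insert _ _)
      obtain ⟨E1, hE1, hEE1⟩ := BC_of hmono hint hE.cn hE.big (U := W \ SQ) (by
        intro y hy
        exact mem_sdiff.2 ⟨hEW hy, (hEout y hy).2.1⟩)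
      have hEQ : ∀ x ∈ Q, ∀ y ∈ E, ¬ G.Adj x y ∧ x ≠ y := fun x hx y hy =>
        hSQ' E1 hE1 x hx y (hEE1 hy)
      have hEB : ∀ i < N, E ⊆ B i := by
        intro i hi
        refine (hBT i hi).1.absorb hint hE.cn hE.big ?_
        intro y hy
        exact mem_sdiff.2 ⟨hEW hy, fun h => (hEout y hy).2.2 (hZmono i N hi.le h)⟩
      have hET : ∀ i < N, E ⊆ T i := by
        intro i hi
        refine (hBT i hi).2.2.2.2.1.absorb hint hE.cn hE.big ?_
        intro y hy
        refine mem_sdiff.2 ⟨hEB i hi hy, fun h => ?_⟩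
        obtain ⟨x, hx, hxy⟩ := mem_NN.1 h
        have := hEQ x hx y hy
        tauto
      intro x hx y hy
      rcases hLmem x hx with h | ⟨i, h⟩
      · exact hEQ x h y hy
      · by_cases hxa : x = a (idx i)
        · have h1 : y ∉ NN G {a (idx i)} := fun h' =>
            (hEout y hy).2.2 (haZ _ N (hidx i) h')
          rw [mem_NN] at h1
          push Not at h1
          rw [hxa]
          exact h1 _ (mem_singleton_self _)
        · obtain ⟨E2, hE2, hEE2⟩ := BC_of hmono hint hE.cn hE.big (U := T (idx i) \ S (idx i)) (by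
            intro y hy
            exact mem_sdiff.2 ⟨hET _ (hidx i) hy,
              fun h' => (hEout y hy).2.2 (hSZ _ N (hidx i) h')⟩)
          exact (hBT _ (hidx i)).2.2.2.2.2.2 E2 hE2 x (mem_erase.2 ⟨hxa, h⟩) y (hEE2 hy)

end big

end Pool.Agent.H20.ThmD
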