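import Pool.Agent.H20.ThmD.Conn

/-! Path decompositions of branching structures. -/

set_option autoImplicit false
set_option linter.unusedSectionVars false
set_option linter.unusedVariables false

namespace Pool.Agent.H20.ThmD

open Finset Pool.Agent.H112R3.TA Pool.Agent.H20

variable {V : Type} [Fintype V] [DecidableEq V] {G : SimpleGraph V}

namespace T3

theorem del_mono {A B : Finset V} (h : A ⊆ B) : del G (univ \ A) ≤ del G (univ \ B) := by
  intro u v huv
  obtain ⟨h1, h2, h3⟩ := huv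
  simp only [mem_sdiff, mem_univ, true_and, not_not] at h2 h3
  refine ⟨h1, ?_, ?_⟩
  · simp only [mem_sdiff, mem_univ, true_and, not_not]; exact h h2
  · simp only [mem_sdiff, mem_univ, true_and, not_not]; exact h h3

theorem Cn.union {A B : Finset V} (hA : Cn G A) (hB : Cn G B)
    (h : ∃ x ∈ A, ∃ y ∈ B, G.Adj x y) : Cn G (A ∪ B) := by
  obtain ⟨x0, hx0, y0, hy0, hadj⟩ := h
  have hedge : (del G (univ \ (A ∪ B))).Reachable x0 y0 := by
    apply SimpleGraph.Adj.reachable
    refine ⟨hadj, ?_, ?_⟩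
    · simp only [mem_sdiff, mem_univ, true_and, not_not]; exact mem_union_left _ hx0
    · simp only [mem_sdiff, mem_univ, true_and, not_not]; exact mem_union_right _ hy0
  have key : ∀ x ∈ A ∪ B, (del G (univ \ (A ∪ B))).Reachable x x0 := by
    intro x hx
    rcases mem_union.1 hx with h1 | h1
    · exact (hA x h1 x0 hx0).mono (del_mono subset_union_left)
    · exact ((hB x h1 y0 hy0).mono (del_mono subset_union_right)).trans hedge.symm
  intro x hx y hy
  exact (key x hx).trans (key y hy).symm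

theorem Cn_path {q : ℕ → V} {r : ℕ} (h : IP G q r) : Cn G ((Icc 1 r).image q) := by
  have key : ∀ j, 1 ≤ j → j ≤ r → (del G (univ \ (Icc 1 r).image q)).Reachable (q 1) (q j) := by
    intro j hj
    induction j, hj using Nat.le_induction with
    | base => intro _; exact SimpleGraph.Reachable.refl _
    | succ j hj ih =>
      intro hjr
      refine (ih (by omega)).trans (SimpleGraph.Adj.reachable ⟨?_, ?_, ?_⟩)
      · exact ((h j (j + 1) (by omega) hjr).1).2 rfl
      · simp only [mem_sdiff, mem_univ, true_and, not_not]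
        exact mem_image_of_mem _ (mem_Icc.2 ⟨hj, by omega⟩)
      · simp only [mem_sdiff, mem_univ, true_and, not_not]
        exact mem_image_of_mem _ (mem_Icc.2 ⟨by omega, hjr⟩)
  intro x hx y hy
  obtain ⟨i, hi, rfl⟩ := mem_image.1 hx
  obtain ⟨j, hj, rfl⟩ := mem_image.1 hy
  rw [mem_Icc] at hi hj
  exact (key i hi.1 hi.2).symm.trans (key j hj.1 hj.2)

theorem order3 {n : ℕ} (t : Fin 3 → Fin n) :
    ∃ a b c : Fin 3, a ≠ b ∧ c ≠ b ∧ t a ≤ t b ∧ t b ≤ t c := by
  rcases le_total (t 0) (t 1) with h1 | h1 <;> rcases le_total (t 1) (t 2) with h2 | h2 <;>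
    rcases le_total (t 0) (t 2) with h3 | h3
  · exact ⟨0, 1, 2, by decide, by decide, h1, h2⟩
  · exact ⟨0, 1, 2, by decide, by decide, h1, h2⟩
  · exact ⟨0, 2, 1, by decide, by decide, h3, h2⟩
  · exact ⟨2, 0, 1, by decide, by decide, h3, h1⟩
  · exact ⟨1, 0, 2, by decide, by decide, h1, h3⟩
  · exact ⟨1, 2, 0, by decide, by decide, h2, h3⟩
  · exact ⟨2, 1, 0, by decide, by decide, h2, h1⟩
  · exact ⟨2, 1, 0, by decide, by decide, h2, h1⟩

end T3

/-- the bags meeting a connected set form an interval -/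
theorem trace_interval {S A : Finset V} (hA : Cn G A) (hAS : A ⊆ S) {n : ℕ}
    (X : Fin n → Finset V)
    (hcov : ∀ v ∈ S, ∃ i, v ∈ X i)
    (hedge : ∀ u v, u ∈ S → v ∈ S → G.Adj u v → ∃ i, u ∈ X i ∧ v ∈ X i)
    (hint : ∀ v, ∀ i j l : Fin n, i ≤ j → j ≤ l → v ∈ X i → v ∈ X l → v ∈ X j)
    {i j l : Fin n} (hij : i ≤ j) (hjl : j ≤ l) (hi : (X i ∩ A).Nonempty)
    (hl : (X l ∩ A).Nonempty) : (X j ∩ A).Nonempty := by
  by_contra hcon
  have hno : ∀ v ∈ A, v ∉ X j := fun v hv hvj => hcon ⟨v, mem_inter.2 ⟨hvj, hv⟩⟩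
  obtain ⟨x, hx⟩ := hi
  obtain ⟨y, hy⟩ := hl
  obtain ⟨hx1, hx2⟩ := mem_inter.1 hx
  obtain ⟨hy1, hy2⟩ := mem_inter.1 hy
  have key : ∀ u v : V, ∀ _w : (del G (univ \ A)).Walk u v,
      (∀ i, u ∈ X i → i < j) → ∀ i, v ∈ X i → i < j := by
    intro u v w
    induction w with
    | nil => exact fun h => h
    | cons hadj w ih =>
      intro hu
      apply ih
      obtain ⟨h1, h2, h3⟩ := hadj
      simp only [mem_sdiff, mem_univ, true_and, not_not] at h2 h3
      obtain ⟨i0, hi1, hi2⟩ := hedge _ _ (hAS h2) (hAS h3) h1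
      intro i' hi'
      by_contra hge
      push Not at hge
      exact hno _ h3 (hint _ i0 j i' (hu i0 hi1).le hge hi2 hi')
  obtain ⟨w⟩ := hA x hx2 y hy2
  have h1 : ∀ i', x ∈ X i' → i' < j := by
    intro i' hi'
    by_contra hge
    push Not at hge
    exact hno x hx2 (hint x i j i' hij hge hx1 hi')
  exact absurd (key x y w h1 l hy1) (not_lt.2 hjl)

theorem St.pw {k : ℕ} {L : Finset V} {l : V} (h : St G k L l) {S : Finset V} (hLS : L ⊆ S)
    {n : ℕ} (X : Fin n → Finset V)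
    (hcov : ∀ v ∈ S, ∃ i, v ∈ X i)
    (hedge : ∀ u v, u ∈ S → v ∈ S → G.Adj u v → ∃ i, u ∈ X i ∧ v ∈ X i)
    (hint : ∀ v, ∀ i j l : Fin n, i ≤ j → j ≤ l → v ∈ X i → v ∈ X l → v ∈ X j) :
    ∃ i, k + 1 ≤ (X i ∩ L).card := by
  induction k generalizing L l with
  | zero =>
    have hL : L = {l} := h
    subst hL
    obtain ⟨i, hi⟩ := hcov l (hLS (mem_singleton_self l))
    refine ⟨i, ?_⟩
    rw [zero_add, Nat.one_le_iff_ne_zero, Finset.card_ne_zero]
    exact ⟨l, mem_inter.2 ⟨hi, mem_singleton_self l⟩⟩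
  | succ k ih =>
    obtain ⟨q, r, A, a, hr, hq0, hIP, hSt, hAC, hqA, hlA, hadj, hoth, hL⟩ := h
    have hAL : ∀ i, A i ⊆ L := by
      intro i x hx
      rw [hL]
      exact mem_union_right _ (mem_biUnion.2 ⟨i, mem_univ i, hx⟩)
    have hqL : (Icc 1 r).image q ⊆ L := by
      rw [hL]
      refine (image_subset_image ?_).trans subset_union_left
      intro j hj
      rw [mem_Icc] at hj
      exact mem_range.2 (by omega)
    have hex : ∀ i : Fin 3, ∃ t, k + 1 ≤ (X t ∩ A i).card := fun i =>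
      ih (hSt i) ((hAL i).trans hLS)
    choose t ht using hex
    obtain ⟨α, β, γ, hαβ, hγβ, h1, h2⟩ := T3.order3 t
    have hcα : Cn G ((Icc 1 r).image q ∪ A α) := by
      apply T3.Cn.union (T3.Cn_path hIP) (St.conn (hSt α))
      obtain ⟨j, hj1, hj2, hj3⟩ := hadj α
      exact ⟨q j, mem_image_of_mem _ (mem_Icc.2 ⟨hj1, hj2⟩), a α, St.root_mem (hSt α), hj3⟩
    have hcR : Cn G ((Icc 1 r).image q ∪ A α ∪ A γ) := by
      apply T3.Cn.union hcα (St.conn (hSt γ))
      obtain ⟨j, hj1, hj2, hj3⟩ := hadj γ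
      exact ⟨q j, mem_union_left _ (mem_image_of_mem _ (mem_Icc.2 ⟨hj1, hj2⟩)), a γ,
        St.root_mem (hSt γ), hj3⟩
    have hRL : (Icc 1 r).image q ∪ A α ∪ A γ ⊆ L :=
      union_subset (union_subset hqL (hAL α)) (hAL γ)
    have hne : ∀ i, (X (t i) ∩ A i).Nonempty := by
      intro i
      rw [← Finset.card_pos]
      exact lt_of_lt_of_le (Nat.succ_pos k) (ht i)
    have hα : (X (t α) ∩ ((Icc 1 r).image q ∪ A α ∪ A γ)).Nonempty := by
      obtain ⟨x, hx⟩ := hne α
      rw [mem_inter] at hx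
      exact ⟨x, mem_inter.2 ⟨hx.1, mem_union_left _ (mem_union_right _ hx.2)⟩⟩
    have hγ : (X (t γ) ∩ ((Icc 1 r).image q ∪ A α ∪ A γ)).Nonempty := by
      obtain ⟨x, hx⟩ := hne γ
      rw [mem_inter] at hx
      exact ⟨x, mem_inter.2 ⟨hx.1, mem_union_right _ hx.2⟩⟩
    obtain ⟨v, hv⟩ := trace_interval hcR (hRL.trans hLS) X hcov hedge hint h1 h2 hα hγ
    obtain ⟨hv1, hv2⟩ := mem_inter.1 hv
    have hvβ : v ∉ A β := by
      intro hvβ
      rcases mem_union.1 hv2 with h3 | h3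
      · rcases mem_union.1 h3 with h4 | h4
        · obtain ⟨j, hj, rfl⟩ := mem_image.1 h4
          rw [mem_Icc] at hj
          exact hqA β j hj.2 hvβ
        · exact (hAC α β hαβ v h4 v hvβ).2 rfl
      · exact (hAC γ β hγβ v h3 v hvβ).2 rfl
    refine ⟨t β, ?_⟩
    have hsub : insert v (X (t β) ∩ A β) ⊆ X (t β) ∩ L := by
      intro x hx
      rcases mem_insert.1 hx with h3 | h3
      · subst h3
        exact mem_inter.2 ⟨hv1, hRL hv2⟩
      · rw [mem_inter] at h3
        exact mem_inter.2 ⟨h3.1, hAL β h3.2⟩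
    have hcard := card_le_card hsub
    rw [card_insert_of_notMem (fun h3 => hvβ (mem_inter.1 h3).2)] at hcard
    have := ht β
    omega

end Pool.Agent.H20.ThmD
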