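import Pool.Agent.H20.ThmD.Conn

/-! Three pairwise anticomplete legs. -/

set_option autoImplicit false
set_option linter.unusedSectionVars false
set_option linter.unusedVariables false

namespace Pool.Agent.H20.ThmD

open Finset Pool.Agent.H112R3.TA Pool.Agent.H20

variable {V : Type} [Fintype V] [DecidableEq V] {G : SimpleGraph V}

namespace T6

theorem AC.symm {A B : Finset V} (h : AC G A B) : AC G B A :=
  fun x hx y hy => ⟨fun hxy => (h y hy x hx).1 hxy.symm, fun hxy => (h y hy x hx).2 hxy.symm⟩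

theorem legs_AC {k N : ℕ} {a : ℕ → V} {A : ℕ → Finset V} (h : Legs G k N a A) {i j : ℕ}
    (hi : i < N) (hj : j < N) (hij : i ≠ j) :
    AC G ((A i).erase (a i)) ((A j).erase (a j)) := by
  rcases Nat.lt_or_gt_of_ne hij with h1 | h1
  · exact (h.2 j hj i h1).2.2
  · exact AC.symm (h.2 i hi j h1).2.2

theorem legs_roots {k N : ℕ} {a : ℕ → V} {A : ℕ → Finset V} (h : Legs G k N a A) {i j : ℕ}
    (hi : i < N) (hj : j < N) (hij : i ≠ j) : ¬ G.Adj (a i) (a j) ∧ a i ≠ a j := by
  rcases Nat.lt_or_gt_of_ne hij with h1 | h1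
  · exact (h.2 j hj i h1).1 _ (St.root_mem (h.1 j hj))
  · obtain ⟨h2, h3⟩ := (h.2 i hi j h1).1 _ (St.root_mem (h.1 i hi))
    exact ⟨fun h4 => h2 h4.symm, fun h4 => h3 h4.symm⟩

open Classical in
theorem few_contacts {t : ℕ} (ht : 1 ≤ t)
    (hstar : ∀ (v : V) (S : Finset V), S.card = t → (∀ x ∈ S, G.Adj v x) →
        ∃ x ∈ S, ∃ y ∈ S, x ≠ y ∧ G.Adj x y) {k N : ℕ} {a : ℕ → V} {A : ℕ → Finset V}
    (h : Legs G k N a A) {j : ℕ} (hj : j < N) :
    ((range j).filter (fun i => Ct G a A i j)).card < t := by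
  by_contra hcon
  push Not at hcon
  obtain ⟨I, hI, hIc⟩ := exists_subset_card_eq hcon
  have hex : ∀ i, ∃ x : V, i ∈ I → x ∈ (A i).erase (a i) ∧ G.Adj (a j) x := by
    intro i
    by_cases hi : i ∈ I
    · obtain ⟨x, hx, hx2⟩ := (mem_filter.1 (hI hi)).2
      exact ⟨x, fun _ => ⟨hx, hx2⟩⟩
    · exact ⟨a 0, fun h' => absurd h' hi⟩
  choose x hx using hex
  have hIN : ∀ i ∈ I, i < N := fun i hi =>
    (mem_range.1 (mem_filter.1 (hI hi)).1).trans hj
  have hne : ∀ i ∈ I, ∀ i' ∈ I, i ≠ i' → ¬ G.Adj (x i) (x i') ∧ x i ≠ x i' := by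
    intro i hi i' hi' hii
    exact legs_AC h (hIN i hi) (hIN i' hi') hii _ (hx i hi).1 _ (hx i' hi').1
  have hinj : Set.InjOn x (I : Set ℕ) := by
    intro i hi i' hi' he
    by_contra hii
    exact (hne i hi i' hi' hii).2 he
  have hcard : (I.image x).card = t := by rw [card_image_of_injOn hinj, hIc]
  obtain ⟨y, hy, z, hz, hyz, hadj⟩ := hstar (a j) (I.image x) hcard (by
    intro y hy
    obtain ⟨i, hi, rfl⟩ := mem_image.1 hy
    exact (hx i hi).2)
  obtain ⟨i, hi, rfl⟩ := mem_image.1 hy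
  obtain ⟨i', hi', rfl⟩ := mem_image.1 hz
  exact (hne i hi i' hi' (fun h' => hyz (by rw [h']))).1 hadj

/-- Ramsey -/
theorem ramsey3 (C : ℕ → ℕ → Prop) (m : ℕ) :
    ∀ I : Finset ℕ, m * m ≤ I.card →
      (∀ i ∈ I, ∀ j ∈ I, ∀ l ∈ I, i < j → j < l → C i j ∨ C i l ∨ C j l) →
      ∃ K ⊆ I, K.card = m ∧ ∀ i ∈ K, ∀ j ∈ K, i < j → C i j := by
  classical
  induction m with
  | zero => exact fun I _ _ => ⟨∅, empty_subset _, rfl, by simp⟩
  | succ m ih =>
    intro I hI hno
    have hpos : 0 < I.card := lt_of_lt_of_le (Nat.mul_pos (Nat.succ_pos m) (Nat.succ_pos m)) hI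
    have hne : I.Nonempty := card_pos.1 hpos
    set v := I.min' hne with hv
    have hvI : v ∈ I := min'_mem I hne
    have hmin : ∀ i ∈ I, v ≤ i := fun i hi => min'_le I i hi
    set U := (I.erase v).filter (fun i => ¬ C v i) with hU
    have hUI : U ⊆ I := (filter_subset _ _).trans (erase_subset _ _)
    have hUv : ∀ i ∈ U, v < i ∧ ¬ C v i := by
      intro i hi
      obtain ⟨h1, h2⟩ := mem_filter.1 hi
      exact ⟨lt_of_le_of_ne (hmin i (mem_of_mem_erase h1)) (ne_of_mem_erase h1).symm, h2⟩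
    by_cases hc : m + 1 ≤ U.card
    · obtain ⟨K, hK, hKc⟩ := exists_subset_card_eq hc
      refine ⟨K, hK.trans hUI, hKc, ?_⟩
      intro i hi j hj hij
      have h1 := hUv i (hK hi)
      have h2 := hUv j (hK hj)
      rcases hno v hvI i (hUI (hK hi)) j (hUI (hK hj)) h1.1 hij with h | h | h
      · exact absurd h h1.2
      · exact absurd h h2.2
      · exact h
    · have hsub : (I.erase v) \ U ⊆ I := sdiff_subset.trans (erase_subset _ _)
      have hcard : m * m ≤ ((I.erase v) \ U).card := by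
        have h1 : ((I.erase v) \ U).card = (I.erase v).card - U.card :=
          card_sdiff_of_subset (filter_subset _ _)
        have h2 : (I.erase v).card = I.card - 1 := card_erase_of_mem hvI
        have h3 : (m + 1) * (m + 1) = m * m + m + m + 1 := by ring
        omega
      obtain ⟨K, hK, hKc, hKp⟩ := ih ((I.erase v) \ U) hcard
        (fun i hi j hj l hl => hno i (hsub hi) j (hsub hj) l (hsub hl))
      have hKv : ∀ i ∈ K, v < i ∧ C v i := by
        intro i hi
        obtain ⟨h1, h2⟩ := mem_sdiff.1 (hK hi)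
        refine ⟨lt_of_le_of_ne (hmin i (mem_of_mem_erase h1)) (ne_of_mem_erase h1).symm, ?_⟩
        by_contra h3
        exact h2 (mem_filter.2 ⟨h1, h3⟩)
      have hvK : v ∉ K := fun h1 => lt_irrefl _ (hKv v h1).1
      refine ⟨insert v K, insert_subset hvI (hK.trans hsub), ?_, ?_⟩
      · rw [card_insert_of_notMem hvK, hKc]
      · intro i hi j hj hij
        rcases mem_insert.1 hi with h1 | h1
        · rcases mem_insert.1 hj with h2 | h2
          · rw [h1, h2] at hij
            exact absurd hij (lt_irrefl _)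
          · rw [h1]
            exact (hKv j h2).2
        · rcases mem_insert.1 hj with h2 | h2
          · rw [h2] at hij
            exact absurd hij (not_lt.2 (hKv i h1).1.le)
          · exact hKp i h1 j h2 hij

end T6

theorem NC_of_star {t : ℕ} (ht : 1 ≤ t)
    (hstar : ∀ (v : V) (S : Finset V), S.card = t → (∀ x ∈ S, G.Adj v x) →
        ∃ x ∈ S, ∃ y ∈ S, x ≠ y ∧ G.Adj x y) : NC G (2 * t + 1) := by
  classical
  intro k a A h
  have h1 := T6.few_contacts ht hstar h (j := 2 * t) (by omega)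
  set B := (range (2 * t)).filter (fun i => ¬ Ct G a A i (2 * t)) with hB
  have hBc : t + 1 ≤ B.card := by
    have h2 := card_filter_add_card_filter_not (s := range (2 * t)) (fun i => Ct G a A i (2 * t))
    rw [card_range] at h2
    have h3 : B.card = ((range (2 * t)).filter (fun i => ¬ Ct G a A i (2 * t))).card := rfl
    omega
  have hne : B.Nonempty := card_pos.1 (by omega)
  set j := B.max' hne with hj
  have hjB : j ∈ B := max'_mem B hne
  have hjlt : j < 2 * t := mem_range.1 (mem_filter.1 hjB).1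
  have h4 := T6.few_contacts ht hstar h (j := j) (by omega)
  have h5 : ∃ i ∈ B.erase j, ¬ Ct G a A i j := by
    by_contra hcon
    push Not at hcon
    have hsub : B.erase j ⊆ (range j).filter (fun i => Ct G a A i j) := by
      intro i hi
      refine mem_filter.2 ⟨mem_range.2 ?_, hcon i hi⟩
      exact lt_of_le_of_ne (le_max' B i (mem_of_mem_erase hi)) (ne_of_mem_erase hi)
    have h6 := card_le_card hsub
    rw [card_erase_of_mem hjB] at h6
    omega
  obtain ⟨i, hi, hij⟩ := h5
  have hilt : i < j := lt_of_le_of_ne (le_max' B i (mem_of_mem_erase hi)) (ne_of_mem_erase hi)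
  exact ⟨i, j, 2 * t, hilt, hjlt, by omega, hij, (mem_filter.1 (mem_of_mem_erase hi)).2,
    (mem_filter.1 hjB).2⟩

theorem NC_of_Cst {s : ℕ} (hs : 1 ≤ s) (h : ∀ k c B, ¬ Cst G s k c B) : NC G (4 * s * s) := by
  intro k a A hL
  by_contra hcon
  push Not at hcon
  obtain ⟨K, hK, hKc, hKp⟩ := T6.ramsey3 (fun i j => Ct G a A i j) (2 * s) (range (4 * s * s))
    (by rw [card_range]; exact le_of_eq (by ring)) (by
      intro i hi j hj l hl hij hjl
      by_contra hno
      push Not at hno
      exact hno.2.2 (hcon i j l hij hjl (mem_range.1 hl) hno.1 hno.2.1))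
  set e := K.orderEmbOfFin hKc with he
  have heK : ∀ i, e i ∈ K := fun i => orderEmbOfFin_mem K hKc i
  have heN : ∀ i, e i < 4 * s * s := fun i => mem_range.1 (hK (heK i))
  let lo : Fin s → Fin (2 * s) := fun i => ⟨i.1, by omega⟩
  let hi : Fin s → Fin (2 * s) := fun i => ⟨s + i.1, by omega⟩
  have hlohi : ∀ i j, e (lo j) < e (hi i) := by
    intro i j
    apply e.strictMono
    show (lo j).1 < (hi i).1
    show j.1 < s + i.1
    omega
  have hlo : ∀ i j, i ≠ j → e (lo i) ≠ e (lo j) := by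
    intro i j hij h'
    have h1 := e.injective h'
    exact hij (Fin.ext (Fin.mk.inj_iff.1 h1))
  have hhi : ∀ i j, i ≠ j → e (hi i) ≠ e (hi j) := by
    intro i j hij h'
    have h1 := e.injective h'
    have h2 : s + i.1 = s + j.1 := Fin.mk.inj_iff.1 h1
    exact hij (Fin.ext (by omega))
  apply h k (fun i => a (e (hi i))) (fun i => (A (e (lo i))).erase (a (e (lo i))))
  refine ⟨?_, ?_, ?_, ?_, ?_⟩
  · intro i
    exact ⟨A (e (lo i)), a (e (lo i)), hL.1 _ (heN _), rfl⟩
  · intro i j hij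
    exact T6.legs_AC hL (heN _) (heN _) (hlo i j hij)
  · intro i j hij
    exact T6.legs_roots hL (heN _) (heN _) (hhi i j hij)
  · intro i j hmem
    exact (hL.2 (e (hi i)) (heN _) (e (lo j)) (hlohi i j)).2.1 (mem_of_mem_erase hmem)
  · intro i j
    exact hKp (e (lo j)) (heK _) (e (hi i)) (heK _) (hlohi i j)

end Pool.Agent.H20.ThmD
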