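import Pool.Agent.H20.ThmD.Main
import Pool.Agent.H20.ThmD.Conn
import Pool.Agent.H20.ThmD.Ramsey

/-! Dominated balanced separators in graphs without deep branching structures. -/

set_option autoImplicit false
set_option linter.unusedSectionVars false

namespace Pool.Agent.H20.ThmD

open Finset Pool.Agent.H112R3.TA Pool.Agent.H20

variable {V : Type} [Fintype V] [DecidableEq V] {G : SimpleGraph V}

/-- graphs without dominated balanced separators contain deep branching structures -/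
theorem St_of_no_sep {N k : ℕ} (hN : 1 ≤ N) (hNC : NC G N) (Big : Finset V → Prop)
    (hmono : ∀ A B : Finset V, A ⊆ B → Big A → Big B)
    (hint : ∀ A B : Finset V, Big A → Big B → (A ∩ B).Nonempty)
    (h : ∀ Y : Finset V, Y.card ≤ KK N k 1 →
      ∃ s, s ∉ Y.biUnion (cnb G) ∧ Big (comp G (Y.biUnion (cnb G)) s)) :
    ∃ L l, St G k L l := by
  classical
  have hH : Hv G Big univ (KK N k 1) := by
    rintro S ⟨Y, hY, hSY⟩
    obtain ⟨s, hs, hb⟩ := h Y hY
    have h1 : BC G Big (univ \ Y.biUnion (cnb G)) (comp G (Y.biUnion (cnb G)) s) := by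
      refine ⟨s, by simp only [mem_sdiff, mem_univ, true_and]; exact hs, ?_, hb⟩
      congr 1
      ext x
      simp
    obtain ⟨B, hB, _⟩ := BC_of hmono hint h1.cn h1.big
      (h1.sub.trans (sdiff_subset_sdiff Subset.rfl hSY))
    exact ⟨B, hB⟩
  obtain ⟨U, hU⟩ := hH ∅ (Dm_empty.mono Subset.rfl (Nat.zero_le _))
  have hHU : Hv G Big U (KK N k 1) := by
    intro S hS
    obtain ⟨B, hB⟩ := hH S hS
    have h1 : B ⊆ U := hU.mono hint hB (sdiff_subset_sdiff Subset.rfl (empty_subset _))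
    obtain ⟨B', hB', _⟩ := BC_of hmono hint hB.cn hB.big (U := U \ S) (by
      intro x hx
      exact mem_sdiff.2 ⟨h1 hx, (mem_sdiff.1 (hB.sub hx)).2⟩)
    exact ⟨B', hB'⟩
  obtain ⟨x, hx⟩ := hU.nonempty hint
  obtain ⟨L, l, hL⟩ := main_lemma hmono hint hN hNC k 1 U {x} hU.cn (by simpa using hx)
    (singleton_nonempty x) hHU (Ins_single x)
  exact ⟨L, l, hL.1⟩

/-- balanced separators dominated by few vertices -/
theorem dom_sep_of {N k : ℕ} (hN : 1 ≤ N) (hNC : NC G N) (hSt : ∀ L l, ¬ St G k L l)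
    (Big : Finset V → Prop)
    (hmono : ∀ A B : Finset V, A ⊆ B → Big A → Big B)
    (hint : ∀ A B : Finset V, Big A → Big B → (A ∩ B).Nonempty) :
    ∃ Y : Finset V, Y.card ≤ KK N k 1 ∧
      ∀ s, s ∉ Y.biUnion (cnb G) → ¬ Big (comp G (Y.biUnion (cnb G)) s) := by
  by_contra hcon
  push Not at hcon
  obtain ⟨L, l, h⟩ := St_of_no_sep hN hNC Big hmono hint hcon
  exact hSt L l h

lemma gg_le (N k : ℕ) : gg N k + 1 ≤ (2 * N + 3) ^ k := by
  induction k with
  | zero => simp [gg]
  | succ k ih =>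
    have h1 : gg N (k + 1) + 1 ≤ (2 * N + 3) * (gg N k + 1) := by
      change 2 + 2 * (N * (gg N k + 1)) + 1 ≤ _
      nlinarith [Nat.zero_le (gg N k), Nat.zero_le N]
    rw [pow_succ, mul_comm]
    exact h1.trans (Nat.mul_le_mul_left _ ih)

lemma KK_le' (N k : ℕ) : ∀ c, KK N k c ≤ c + 3 * (2 * N + 3) ^ (k + 1) := by
  induction k with
  | zero => intro c; simp [KK]
  | succ k ih =>
    intro c
    have h1 := ih (N * (gg N k + 1) + 1)
    have h2 := gg_le N k
    set P := 2 * N + 3 with hP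
    have h3 : N * (gg N k + 1) ≤ N * P ^ k := Nat.mul_le_mul_left _ h2
    change c + 2 + N * (gg N k + 1) + KK N k (N * (gg N k + 1) + 1) ≤ _
    have h4 : 1 ≤ P ^ k := Nat.one_le_pow _ _ (by omega)
    have h5 : P ^ (k + 1) = P * P ^ k := by rw [pow_succ, mul_comm]
    have h6 : P ^ (k + 1 + 1) = P * (P * P ^ k) := by rw [pow_succ, pow_succ]; ring
    rw [h6]
    rw [h5] at h1
    have h7' : P * P ^ k = 2 * (N * P ^ k) + 3 * P ^ k := by
      have : P * P ^ k = (2 * N + 3) * P ^ k := by rw [hP]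
      rw [this]
      ring
    have h7 : 3 + 2 * (N * P ^ k) ≤ P * P ^ k := by omega
    have h8 : 3 * (P * P ^ k) ≤ P * (P * P ^ k) := Nat.mul_le_mul_right _ (by omega)
    have h9 : P * P ^ k ≤ P * (P * P ^ k) := Nat.le_mul_of_pos_left _ (by omega)
    omega

lemma KK_le (N k : ℕ) : KK N k 1 ≤ (2 * N + 3) ^ (k + 2) := by
  by_cases hN : N = 0
  · subst hN
    have h := KK_le' 0 k 1
    have h1 : 1 ≤ 3 ^ k := Nat.one_le_pow _ _ (by norm_num)
    simp only [mul_zero, zero_add] at h ⊢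
    -- direct computation
    have h2 : ∀ k c, KK 0 k c ≤ c + 3 * k := by
      intro k
      induction k with
      | zero => intro c; simp [KK]
      | succ k ih =>
        intro c
        have := ih (0 * (gg 0 k + 1) + 1)
        change c + 2 + 0 * (gg 0 k + 1) + KK 0 k (0 * (gg 0 k + 1) + 1) ≤ _
        omega
    refine (h2 k 1).trans ?_
    have h3 : k < 3 ^ k := Nat.lt_pow_self (by norm_num)
    rw [pow_add]
    omega
  · have h := KK_le' N k 1
    set P := 2 * N + 3 with hP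
    have h1 : 1 ≤ P ^ (k + 1) := Nat.one_le_pow _ _ (by omega)
    have h2 : P ^ (k + 2) = P * P ^ (k + 1) := by rw [pow_succ, mul_comm]
    have h3 : 4 * P ^ (k + 1) ≤ P * P ^ (k + 1) := Nat.mul_le_mul_right _ (by omega)
    omega

/-- from dominated balanced separators to tree decompositions -/
theorem td_of_dom {K t : ℕ} (hK : 1 ≤ K) (ht : 1 ≤ t) (hcnb : ∀ v, al G (cnb G v) ≤ t)
    (hsep : ∀ Big : Finset V → Prop, (∀ A B : Finset V, A ⊆ B → Big A → Big B) →
      (∀ A B : Finset V, Big A → Big B → (A ∩ B).Nonempty) →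
      ∃ Y : Finset V, Y.card ≤ K ∧
        ∀ s, s ∉ Y.biUnion (cnb G) → ¬ Big (comp G (Y.biUnion (cnb G)) s)) :
    ∃ (m : ℕ) (T : SimpleGraph (Fin m)) (B : Fin m → Finset V),
      T.IsTree ∧
      (∀ v, ∃ i, v ∈ B i) ∧
      (∀ u v, G.Adj u v → ∃ i, u ∈ B i ∧ v ∈ B i) ∧
      (∀ v, (T.induce {i | v ∈ B i}).Connected) ∧
      (∀ v i j, v ∈ B i → v ∈ B j → ∃ p : T.Walk i j, ∀ x ∈ p.support, v ∈ B x) ∧
      (∀ i (S : Finset V), S ⊆ B i → G.IsIndepSet (S : Set V) → S.card ≤ 13 * (K * t)) := by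
  classical
  have hct : 1 ≤ K * t := Nat.one_le_iff_ne_zero.2 (by positivity)
  have main := td_of_sep (G := G) (K * t) (4 * (2 * (K * t) + 1)) (2 * (K * t) + 1) (by omega)
    (by omega) ?_ univ ∅ (empty_subset _) (by rw [al_empty]; exact Nat.zero_le _)
  · obtain ⟨r, par, B, hB⟩ := main
    obtain ⟨g1, g2, g3, g4, g5⟩ := hB.exists_tree
    refine ⟨r, parTree r par, fun i => B i, g1, g2, g3, ?_, ?_, ?_⟩
    · intro v
      obtain ⟨i0, hi0⟩ := g2 v
      have hne : Nonempty ({i : Fin r | v ∈ B i} : Set (Fin r)) := ⟨⟨i0, hi0⟩⟩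
      refine SimpleGraph.Connected.mk ?_
      rintro ⟨x, hx⟩ ⟨y, hy⟩
      obtain ⟨p, hp⟩ := g4 v x y hx hy
      exact ⟨p.induce _ hp⟩
    · exact g4
    · intro i S hSB hS'
      refine (g5 i S hSB (fun u hu w hw huw => hS' hu hw huw)).trans ?_
      omega
  · intro I _ hIc
    obtain ⟨Y, hY, hYbal⟩ := hsep
      (fun A => I.card < 2 * (I ∩ A).card)
      (fun A B hAB hA => by
        have h2 : (I ∩ A).card ≤ (I ∩ B).card := card_le_card (inter_subset_inter_left hAB)
        omega)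
      (fun A B hA hB => by
        by_contra hcon
        rw [not_nonempty_iff_eq_empty] at hcon
        have hdis : Disjoint (I ∩ A) (I ∩ B) := by
          rw [disjoint_left]
          intro x hx hx'
          exact notMem_empty x (hcon ▸ mem_inter.2 ⟨(mem_inter.1 hx).2, (mem_inter.1 hx').2⟩)
        have h1 : ((I ∩ A) ∪ (I ∩ B)).card ≤ I.card :=
          card_le_card (union_subset inter_subset_left inter_subset_left)
        rw [card_union_of_disjoint hdis] at h1
        omega)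
    have hal : al G (Y.biUnion (cnb G)) ≤ K * t :=
      (al_biUnion_le (fun y _ => hcnb y)).trans (Nat.mul_le_mul_right _ hY)
    obtain ⟨A, B, h1, h2, h3, h4, h5, h6, h7⟩ := exists_split (G := G) (Y.biUnion (cnb G)) I
      (2 * (K * t) + 1) (by omega) (by
        intro s hs
        have := hYbal s hs
        omega)
    rw [hIc] at h6 h7
    exact ⟨_, A, B, h1, h2, h3, h4, h5, hal, h6, h7⟩

/-- stars and closed neighbourhoods -/
lemma al_cnb_le {t : ℕ} (ht : 1 ≤ t)
    (hstar : ∀ (v : V) (S : Finset V), S.card = t → (∀ x ∈ S, G.Adj v x) →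
        ∃ x ∈ S, ∃ y ∈ S, x ≠ y ∧ G.Adj x y) (v : V) : al G (cnb G v) ≤ t := by
  refine al_le_iff.2 fun J hJ hi => ?_
  by_cases hv : v ∈ J
  · have : J ⊆ {v} := by
      intro x hx
      rw [mem_singleton]
      by_contra hne
      have h1 := mem_cnb.1 (hJ hx)
      rcases h1 with h1 | h1
      · exact hi hv hx (fun h => hne h.symm) h1
      · exact hne h1.symm
    exact (card_le_card this).trans (by simpa using ht)
  · by_contra hlt
    push Not at hlt
    obtain ⟨S, hSJ, hSc⟩ := exists_subset_card_eq hlt.le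
    obtain ⟨x, hx, y, hy, hxy, hadj⟩ := hstar v S hSc (fun x hx => by
      rcases mem_cnb.1 (hJ (hSJ hx)) with h1 | h1
      · exact h1
      · exact absurd (h1 ▸ hSJ hx) hv)
    exact hi (hSJ hx) (hSJ hy) hxy hadj

end Pool.Agent.H20.ThmD
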